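import Pool.Agent.Helper16.QP.Defs
import Pool.Agent.Helper21.V2.Defs

/-!
# QP: germs and their sizes

`F : ℕ → ι → k` is a sequence of vectors, `U` an ultrafilter. `van U F`: the linear forms which vanish along `U`.
`szf U F v g`: the limit along `U` of `(log |F n|_v - log |g(F n)|_v) / h(F n)`.
-/

set_option autoImplicit false

namespace Pool.Agent.QP

open NumberField Filter
open Pool.Agent.Helper64.Vojta (Pl nv)
open Pool.Agent.V2

variable {k : Type*} [Field k] [NumberField k] {ι : Type*} [Fintype ι]

/-- value of a linear form -/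
def vl (g y : ι → k) : k := ∑ a, g a * y a

/-- the linear forms which vanish along `U` -/
def van (U : Ultrafilter ℕ) (F : ℕ → ι → k) : Submodule k (ι → k) where
  carrier := {g | ∀ᶠ n in (U : Filter ℕ), vl g (F n) = 0}
  zero_mem' := Eventually.of_forall fun n => by simp [vl]
  add_mem' := by
    intro g g' h h'
    filter_upwards [h, h'] with n h1 h2
    have : vl (g + g') (F n) = vl g (F n) + vl g' (F n) := by simp [vl, add_mul, Finset.sum_add_distrib]
    rw [this, h1, h2, add_zero]
  smul_mem' := by
    intro c g h
    filter_upwards [h] with n h1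
    have : vl (c • g) (F n) = c * vl g (F n) := by simp [vl, Finset.mul_sum, mul_assoc]
    rw [this, h1, mul_zero]

/-- the quotient: linear forms on the span of the germ -/
abbrev Qt (U : Ultrafilter ℕ) (F : ℕ → ι → k) : Type _ := (ι → k) ⧸ van U F

/-- the size of a form -/
noncomputable def szf (U : Ultrafilter ℕ) (F : ℕ → ι → k) (v : Pl k) (g : ι → k) : ℝ :=
  limUnder (U : Filter ℕ) fun n => (Real.log (vn v (F n)) - Real.log (nv v (vl g (F n)))) / vH (F n)

/-- the size on the quotient -/
noncomputable def sz (U : Ultrafilter ℕ) (F : ℕ → ι → k) (v : Pl k) (x : Qt U F) : ℝ :=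
  szf U F v (Quotient.out x)

end Pool.Agent.QP
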