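import Pool.Agent.Helper16.QP.NI
import Pool.Agent.Helper16.QP.B4
import Pool.Agent.Helper36.QP.B4b

/-!
# QP, block C: the combination
-/

set_option autoImplicit false

namespace Pool.Agent.QP

open Module

variable {K : Type*} [Field K] {q : ℕ} (l : Fin q → Fin 3 → K)
variable {Q : Type*} [AddCommGroup Q] [Module K Q] (Φ : (Fin 6 → K) →ₗ[K] Q)

theorem sum_ind {ι : Type*} [DecidableEq ι] (P : Finset ι) (s : ι → Q → ℝ)
    (sch : ∀ (n : ι → ℕ) (w : ∀ v, Fin (n v) → Q), (∀ v ∈ P, LinearIndependent K (w v)) →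
      ∑ v ∈ P, ∑ i, s v (w v i) ≤ finrank K Q) (r : ι → ℝ) (h : ∀ v ∈ P, Ind K (s v) (r v)) :
    ∑ v ∈ P, r v ≤ finrank K Q := by
  classical
  have h1 : ∀ v, ∃ n, ∃ w : Fin n → Q, v ∈ P → LinearIndependent K w ∧ r v ≤ ∑ i, s v (w i) := by
    intro v
    by_cases hv : v ∈ P
    · obtain ⟨n, w, hw⟩ := h v hv
      exact ⟨n, w, fun _ => hw⟩
    · exact ⟨0, Fin.elim0, fun h => absurd h hv⟩
  choose n w hw using h1
  refine le_trans (Finset.sum_le_sum fun v hv => (hw v hv).2) (sch n w fun v hv => (hw v hv).1)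

/-- The combination of the local inequalities. -/
theorem comb [CharZero K] {ι : Type*} [DecidableEq ι] (hΦ : Function.Surjective Φ) (hl : GP l) (hq : 4 ≤ q) (hE : ∀ i, E Φ l i ≠ 0)
    (P : Finset ι) (s : ι → Q → ℝ) (a b : ι → Fin q → ℝ) (hp : ∀ v ∈ P, Plc Φ l (s v) (a v) (b v))
    (sch : ∀ (n : ι → ℕ) (w : ∀ v, Fin (n v) → Q), (∀ v ∈ P, LinearIndependent K (w v)) →
      ∑ v ∈ P, ∑ i, s v (w v i) ≤ finrank K Q)
    (res : ∀ e : Q, e ≠ 0 → ∑ v ∈ P, s v e ≤ 1)
    (hNR : finrank K Q ≤ 3 → ∀ i j, i ≠ j → 2 ≤ finrank K (Submodule.span K {E Φ l i, B Φ l i j, E Φ l j}))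
    (hEF : finrank K Q = 4 → (∃ k k', Prp Φ l k k') → (∀ e : ι → Q, (∀ v ∈ P, e v ≠ 0) → ∑ v ∈ P, s v (e v) ≤ 2) ∨
      (∀ R : ι → ℝ, (∀ v ∈ P, (∃ k, R v = s v (E Φ l k)) ∨
        ∃ k k', ¬ Rel Φ l k k' ∧ Prp Φ l k k' ∧ R v = s v (E Φ l k) + s v (E Φ l k')) →
        ∑ v ∈ P, R v ≤ 3)) :
    ∑ v ∈ P, Tot Φ l (s v) ≤ 6 := by
  classical
  have hfin : FiniteDimensional K Q := FiniteDimensional.of_surjective Φ hΦ
  have h6 : finrank K Q ≤ 6 := by
    have := LinearMap.finrank_le_finrank_of_surjective hΦ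
    simpa using this
  have hs := fun (r : ι → ℝ) h => sum_ind (K := K) P s sch r h
  rcases Nat.lt_or_ge (finrank K Q) 4 with hd | hd
  · have h1 := hs (fun v => Tot Φ l (s v) / 2) fun v hv => loc3 hl hq hE (hNR (by omega)) (s v) (a v) (b v) (hp v hv)
    rw [← Finset.sum_div] at h1
    have h2 : (finrank K Q : ℝ) ≤ 3 := by exact_mod_cast (by omega : finrank K Q ≤ 3)
    linarith
  have hcases : finrank K Q = 4 ∨ finrank K Q = 5 ∨ finrank K Q = 6 := by omega
  rcases hcases with hd | hd | hd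
  · rw [hd] at hs
    push_cast at hs
    by_cases hc : ∀ i j, i ≠ j → ¬ Rel Φ l i j
    · have h1 := hs (fun v => 2 / 3 * Tot Φ l (s v)) fun v hv => loc4a l Φ hΦ hl hq hE hd hc (s v) (a v) (b v) (hp v hv)
      rw [← Finset.mul_sum] at h1
      linarith
    · push Not at hc
      obtain ⟨i0, j0, h0, hr⟩ := hc
      by_cases h : ∀ i j, i ≠ j → Rel Φ l i j → Rel Φ l i i0
      · have h1 := hs (fun v => (3 * Tot Φ l (s v) - 2 * s v (E Φ l i0)) / 4) fun v hv =>
          Pool.Agent.QP36.loc4b l Φ hΦ hl hq hE hd i0 j0 h0 hr h (s v) (a v) (b v) (hp v hv)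
        have h2 := res _ (hE i0)
        rw [← Finset.sum_div, Finset.sum_sub_distrib, ← Finset.mul_sum, ← Finset.mul_sum] at h1
        linarith
      · push Not at h
        obtain ⟨i, j, hij, hrij, hn⟩ := h
        rcases hEF hd ⟨i, i0, prp_exists hl hΦ hd hE hij hrij h0 hr hn⟩ with he | he
        · have h1 : ∀ v, ∃ k, v ∈ P → Ind K (s v) (Tot Φ l (s v) - s v (E Φ l k)) := by
            intro v
            by_cases hv : v ∈ P
            · obtain ⟨k, hk⟩ := loc4m l Φ hΦ hl hq hE hd (s v) (a v) (b v) (hp v hv)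
              exact ⟨k, fun _ => hk⟩
            · exact ⟨i, fun h => absurd h hv⟩
          choose κ hκ using h1
          have h2 := hs (fun v => Tot Φ l (s v) - s v (E Φ l (κ v))) fun v hv => hκ v hv
          have h3 := he (fun v => E Φ l (κ v)) fun v _ => hE _
          rw [Finset.sum_sub_distrib] at h2
          linarith
        · have h1 : ∀ v, ∃ R : ℝ, v ∈ P → ((∃ k, R = s v (E Φ l k)) ∨
              ∃ k k', ¬ Rel Φ l k k' ∧ Prp Φ l k k' ∧ R = s v (E Φ l k) + s v (E Φ l k')) ∧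
              Tot Φ l (s v) ≤ 2 * R := by
            intro v
            by_cases hv : v ∈ P
            · rcases loc4c hΦ hl hq hE hd i j i0 j0 hij hrij h0 hr hn (s v) (a v) (b v) (hp v hv) with
                ⟨k, hk⟩ | ⟨k, k', hk0, hk, hk'⟩
              · exact ⟨_, fun _ => ⟨Or.inl ⟨k, rfl⟩, hk⟩⟩
              · exact ⟨_, fun _ => ⟨Or.inr ⟨k, k', hk0, hk, rfl⟩, hk'⟩⟩
            · exact ⟨0, fun h => absurd h hv⟩
          choose R hR using h1
          have h2 := he R fun v hv => (hR v hv).1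
          have h3 : ∑ v ∈ P, Tot Φ l (s v) ≤ ∑ v ∈ P, 2 * R v := Finset.sum_le_sum fun v hv => (hR v hv).2
          rw [← Finset.mul_sum] at h3
          linarith
  · rw [hd] at hs
    push_cast at hs
    obtain ⟨e, he, h⟩ := loc5 hΦ hl hq hE hd
    have h1 := hs (fun v => Tot Φ l (s v) - s v e) fun v hv => h (s v) (a v) (b v) (hp v hv)
    have h2 := res e he
    rw [Finset.sum_sub_distrib] at h1
    linarith
  · rw [hd] at hs
    push_cast at hs
    exact hs (fun v => Tot Φ l (s v)) fun v hv => loc6 hΦ hl hq hE hd (s v) (a v) (b v) (hp v hv)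

end Pool.Agent.QP
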