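import Mathlib

/-!
# Project QP (quadratic points in the plane): definitions

`sy l m`: coefficients of the product of the linear forms `l`, `m` in three variables; `pr g f`: value of the quadratic form `g` at the
symmetric tensor `f`; `ten x y`: the symmetric tensor of the points `x`, `y`, so that
`pr (sy l m) (ten x y) = l(x) m(y) + m(x) l(y)`.
`Φ : (Fin 6 → K) →ₗ[K] Q`: the quadratic forms modulo those which vanish at the germ. `s : Q → ℝ`: the sizes at one place.
-/

set_option autoImplicit false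

namespace Pool.Agent.QP

variable {K : Type*} [Field K]

/-- coefficients of the product of two linear forms -/
def sy (l m : Fin 3 → K) : Fin 6 → K :=
  ![l 0 * m 0, l 1 * m 1, l 2 * m 2, l 0 * m 1 + l 1 * m 0, l 0 * m 2 + l 2 * m 0, l 1 * m 2 + l 2 * m 1]

/-- value of the quadratic form `g` at the symmetric tensor `f` -/
def pr (g f : Fin 6 → K) : K := ∑ a, g a * f a

/-- the symmetric tensor of two points -/
def ten (x y : Fin 3 → K) : Fin 6 → K :=
  ![2 * (x 0 * y 0), 2 * (x 1 * y 1), 2 * (x 2 * y 2), x 0 * y 1 + x 1 * y 0, x 0 * y 2 + x 2 * y 0, x 1 * y 2 + x 2 * y 1]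

/-- the value of a linear form at a point -/
def dt (l x : Fin 3 → K) : K := ∑ a, l a * x a

theorem pr_sy_ten (l m x y : Fin 3 → K) : pr (sy l m) (ten x y) = dt l x * dt m y + dt m x * dt l y := by
  simp only [pr, sy, ten, dt, Fin.sum_univ_succ, Fin.sum_univ_zero]
  simp [Matrix.cons_val_zero]
  ring

/-- determinant of the symmetric matrix of a symmetric tensor -/
def det6 (f : Fin 6 → K) : K :=
  f 0 * (f 1 * f 2 - f 5 * f 5) - f 3 * (f 3 * f 2 - f 5 * f 4) + f 4 * (f 3 * f 5 - f 1 * f 4)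

theorem det6_ten (x y : Fin 3 → K) : det6 (ten x y) = 0 := by
  simp [det6, ten]
  ring

/-- determinant of three linear forms -/
def d3 (l m n : Fin 3 → K) : K :=
  l 0 * (m 1 * n 2 - m 2 * n 1) - l 1 * (m 0 * n 2 - m 2 * n 0) + l 2 * (m 0 * n 1 - m 1 * n 0)

/-- general position: no three of the lines are concurrent -/
def GP {q : ℕ} (l : Fin q → Fin 3 → K) : Prop :=
  ∀ i j k : Fin q, i ≠ j → i ≠ k → j ≠ k → d3 (l i) (l j) (l k) ≠ 0

section quot

variable {Q : Type*} [AddCommGroup Q] [Module K Q] (Φ : (Fin 6 → K) →ₗ[K] Q) {q : ℕ} (l : Fin q → Fin 3 → K)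

/-- the class of `l_i²` -/
def E (i : Fin q) : Q := Φ (sy (l i) (l i))

/-- the class of `l_i l_j` -/
def B (i j : Fin q) : Q := Φ (sy (l i) (l j))

/-- The sizes at one place, and the closeness `a` of the first, `b` of the second point to the lines. -/
structure Plc (s : Q → ℝ) (a b : Fin q → ℝ) : Prop where
  nonneg : ∀ x, x ≠ 0 → 0 ≤ s x
  smul : ∀ (c : K) (x : Q), c ≠ 0 → x ≠ 0 → s (c • x) = s x
  add : ∀ x y, x ≠ 0 → y ≠ 0 → x + y ≠ 0 → min (s x) (s y) ≤ s (x + y)
  a0 : ∀ i, 0 ≤ a i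
  b0 : ∀ i, 0 ≤ b i
  agp : ∀ i j k, i ≠ j → i ≠ k → j ≠ k → a i = 0 ∨ a j = 0 ∨ a k = 0
  bgp : ∀ i j k, i ≠ j → i ≠ k → j ≠ k → b i = 0 ∨ b j = 0 ∨ b k = 0
  sq : ∀ i, s (E Φ l i) = a i + b i
  nod : ∀ (m : Fin 3 → K) (i j i' j' : Fin q), m ∈ Submodule.span K {l i, l j} → m ∈ Submodule.span K {l i', l j'} →
    Φ (sy m m) ≠ 0 → min (a i) (a j) + min (b i') (b j') ≤ s (Φ (sy m m))
  mul : ∀ i j, i ≠ j → B Φ l i j ≠ 0 → min (a i + b j) (a j + b i) ≤ s (B Φ l i j)
  mul_eq : ∀ i j, i ≠ j → a i + b j < a j + b i → B Φ l i j ≠ 0 ∧ s (B Φ l i j) = a i + b j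

/-- `r` is at most the sum of the sizes of a linearly independent family. -/
def Ind (K : Type*) [Field K] {Q : Type*} [AddCommGroup Q] [Module K Q] (s : Q → ℝ) (r : ℝ) : Prop :=
  ∃ (n : ℕ) (w : Fin n → Q), LinearIndependent K w ∧ r ≤ ∑ i, s (w i)

/-- the total size of `D` -/
def Tot (s : Q → ℝ) : ℝ := ∑ i, s (E Φ l i)

/-- The pair of the lines `i`, `j` is proper: its two zeros do not contain a line of degenerate tensors. -/
def Prp (i j : Fin q) : Prop :=
  ∃ f : Fin 6 → K, (∀ g, Φ g = 0 → pr g f = 0) ∧ pr (sy (l i) (l i)) f = 0 ∧ pr (sy (l j) (l j)) f = 0 ∧ det6 f ≠ 0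

/-- `l_i²` and `l_j²` are proportional modulo the relations -/
def Rel (i j : Fin q) : Prop := ∃ c : K, E Φ l i = c • E Φ l j

end quot

end Pool.Agent.QP
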