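import Pool.Agent.Helper16.QP.GDefs

/-!
# QP: statements of the global blocks SCH, EF (do not import; copy your statement)
-/

set_option autoImplicit false

namespace Pool.Agent.QP

open NumberField Filter Module MvPolynomial
open Pool.Agent.Helper64.Vojta (Pl nv)
open Pool.Agent.V2

variable {k : Type*} [Field k] [NumberField k] {ι : Type*} [Fintype ι]
variable (U : Ultrafilter ℕ) (F : ℕ → ι → k) (hH : Tendsto (fun n => vH (F n)) (U : Filter ℕ) atTop)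

include hH

/-! ### SCH -/

/-- the limit exists -/
theorem szf_tendsto (v : Pl k) (g : ι → k) (hg : g ∉ van U F) :
    Tendsto (fun n => (Real.log (vn v (F n)) - Real.log (nv v (vl g (F n)))) / vH (F n)) (U : Filter ℕ)
      (nhds (szf U F v g)) := sorry

theorem sz_mk (v : Pl k) (g : ι → k) (hg : g ∉ van U F) : sz U F v ((van U F).mkQ g) = szf U F v g := sorry

theorem sz_nonneg (v : Pl k) (x : Qt U F) (hx : x ≠ 0) : 0 ≤ sz U F v x := sorry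

theorem sz_smul (v : Pl k) (c : k) (x : Qt U F) (hc : c ≠ 0) (hx : x ≠ 0) : sz U F v (c • x) = sz U F v x := sorry

theorem sz_add (v : Pl k) (x y : Qt U F) (hx : x ≠ 0) (hy : y ≠ 0) (hxy : x + y ≠ 0) :
    min (sz U F v x) (sz U F v y) ≤ sz U F v (x + y) := sorry

theorem res (P : Finset (Pl k)) (x : Qt U F) (hx : x ≠ 0) : ∑ v ∈ P, sz U F v x ≤ 1 := sorry

/-- the subspace theorem -/
theorem sch (P : Finset (Pl k)) (n : Pl k → ℕ) (w : ∀ v, Fin (n v) → Qt U F)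
    (hw : ∀ v ∈ P, LinearIndependent k (w v)) : ∑ v ∈ P, ∑ i, sz U F v (w v i) ≤ finrank k (Qt U F) := sorry

omit hH

/-! ### EF -/

/-- `G` is linearly nondegenerate in `k^4` and lies on the surface `f = 0`. -/
theorem ef4 (G : ℕ → Fin 4 → k) (hG : van U G = ⊥) (hH : Tendsto (fun n => vH (G n)) (U : Filter ℕ) atTop)
    (f : MvPolynomial (Fin 4) k) {D : ℕ} (hf : f.IsHomogeneous D) (hf0 : f ≠ 0) (hfG : ∀ᶠ n in (U : Filter ℕ), eval (G n) f = 0)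
    (P : Finset (Pl k)) :
    (∀ c : Pl k → Fin 4 → k, (∀ v ∈ P, c v ≠ 0) → ∑ v ∈ P, szf U G v (c v) ≤ 2) ∨
    (∀ R : Pl k → ℝ, (∀ v ∈ P, (∃ c : Fin 4 → k, c ≠ 0 ∧ R v = szf U G v c) ∨
        ∃ c c' : Fin 4 → k, (∃ x : Fin 4 → k, vl c x = 0 ∧ vl c' x = 0 ∧ eval x f ≠ 0) ∧ R v = szf U G v c + szf U G v c') →
      ∑ v ∈ P, R v ≤ 3) := sorry

/-- The form needed: the germ `F` of symmetric tensors of rank at most two. -/
theorem ef (F : ℕ → Fin 6 → k) (hH : Tendsto (fun n => vH (F n)) (U : Filter ℕ) atTop)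
    (hdet : ∀ᶠ n in (U : Filter ℕ), det6 (F n) = 0) (hd : finrank k (Qt U F) = 4)
    (hne : ∃ f : Fin 6 → k, (∀ g ∈ van U F, pr g f = 0) ∧ det6 f ≠ 0) (P : Finset (Pl k)) :
    (∀ e : Pl k → Qt U F, (∀ v ∈ P, e v ≠ 0) → ∑ v ∈ P, sz U F v (e v) ≤ 2) ∨
    (∀ R : Pl k → ℝ, (∀ v ∈ P, (∃ g : Fin 6 → k, g ∉ van U F ∧ R v = sz U F v ((van U F).mkQ g)) ∨
        ∃ g g' : Fin 6 → k, (∃ f : Fin 6 → k, (∀ h ∈ van U F, pr h f = 0) ∧ pr g f = 0 ∧ pr g' f = 0 ∧ det6 f ≠ 0) ∧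
          g ∉ van U F ∧ g' ∉ van U F ∧ R v = sz U F v ((van U F).mkQ g) + sz U F v ((van U F).mkQ g')) →
      ∑ v ∈ P, R v ≤ 3) := sorry

end Pool.Agent.QP
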