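import Pool.Agent.Helper16.QP.Defs

/-!
# QP, block P1: improper pairs
-/

set_option autoImplicit false

namespace Pool.Agent.QP

open Module

variable {K : Type*} [Field K]

theorem sy_comm (l m : Fin 3 → K) : sy l m = sy m l := by
  funext a
  fin_cases a <;> simp [sy] <;> ring

theorem sy_add (l m n : Fin 3 → K) : sy (l + m) n = sy l n + sy m n := by
  funext a
  fin_cases a <;> simp [sy] <;> ring

theorem sy_smul (c : K) (l m : Fin 3 → K) : sy (c • l) m = c • sy l m := by
  funext a
  fin_cases a <;> simp [sy] <;> ring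

theorem pr_add_left (g g' f : Fin 6 → K) : pr (g + g') f = pr g f + pr g' f := by
  simp [pr, add_mul, Finset.sum_add_distrib]

theorem pr_smul_left (c : K) (g f : Fin 6 → K) : pr (c • g) f = c * pr g f := by
  simp [pr, Finset.mul_sum, mul_assoc]

theorem pr_add_right (g f f' : Fin 6 → K) : pr g (f + f') = pr g f + pr g f' := by
  simp [pr, mul_add, Finset.sum_add_distrib]

theorem pr_smul_right (c : K) (g f : Fin 6 → K) : pr g (c • f) = c * pr g f := by
  simp only [pr, Finset.mul_sum, Pi.smul_apply, smul_eq_mul]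
  exact Finset.sum_congr rfl fun a _ => by ring

/-- the dot product as a bilinear form -/
noncomputable def PB : LinearMap.BilinForm K (Fin 6 → K) :=
  LinearMap.mk₂ K pr pr_add_left pr_smul_left pr_add_right pr_smul_right

theorem PB_apply (g f : Fin 6 → K) : PB g f = pr g f := rfl

theorem pr_comm (g f : Fin 6 → K) : pr g f = pr f g := by
  simp [pr, mul_comm]

theorem PB_refl : (PB : LinearMap.BilinForm K (Fin 6 → K)).IsRefl := by
  intro x y h
  rw [PB_apply] at h ⊢
  rw [pr_comm, h]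

theorem PB_nondeg : (PB : LinearMap.BilinForm K (Fin 6 → K)).Nondegenerate := by
  constructor
  · intro g h
    funext a
    have := h (Pi.single a 1)
    rw [PB_apply] at this
    simpa [pr, Pi.single_apply] using this
  · intro g h
    funext a
    have := h (Pi.single a 1)
    rw [PB_apply] at this
    simpa [pr, Pi.single_apply] using this

theorem pr_sy (l m : Fin 3 → K) (f : Fin 6 → K) : pr (sy l m) f = l 0 * m 0 * f 0 + l 1 * m 1 * f 1 + l 2 * m 2 * f 2 +
    (l 0 * m 1 + l 1 * m 0) * f 3 + (l 0 * m 2 + l 2 * m 0) * f 4 + (l 1 * m 2 + l 2 * m 1) * f 5 := by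
  have h6 : pr (sy l m) f = sy l m 0 * f 0 + sy l m 1 * f 1 + sy l m 2 * f 2 + sy l m 3 * f 3 + sy l m 4 * f 4 + sy l m 5 * f 5 := by
    simp only [pr]
    rw [Fin.sum_univ_six]
  rw [h6]
  rfl

theorem pr_sy_mat (l m : Fin 3 → K) (f : Fin 6 → K) :
    pr (sy l m) f = ∑ s, ∑ t, l s * (!![f 0, f 3, f 4; f 3, f 1, f 5; f 4, f 5, f 2] : Matrix (Fin 3) (Fin 3) K) s t * m t := by
  rw [pr_sy]
  simp [Fin.sum_univ_three]
  ring

/-- the Gram determinant -/
theorem gram (f : Fin 6 → K) (u v w : Fin 3 → K) :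
    det6 f * d3 u v w ^ 2 =
      pr (sy u u) f * (pr (sy v v) f * pr (sy w w) f - pr (sy v w) f * pr (sy v w) f) -
      pr (sy u v) f * (pr (sy u v) f * pr (sy w w) f - pr (sy v w) f * pr (sy u w) f) +
      pr (sy u w) f * (pr (sy u v) f * pr (sy v w) f - pr (sy v v) f * pr (sy u w) f) := by
  set M : Matrix (Fin 3) (Fin 3) K := !![f 0, f 3, f 4; f 3, f 1, f 5; f 4, f 5, f 2] with hM
  set W : Matrix (Fin 3) (Fin 3) K := Matrix.of ![u, v, w] with hW
  have hdM : M.det = det6 f := by
    rw [Matrix.det_fin_three, hM]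
    simp [det6]
    ring
  have hdW : W.det = d3 u v w := by
    rw [Matrix.det_fin_three, hW]
    simp [d3]
    ring
  have hG : ∀ a b, (W * M * W.transpose) a b = pr (sy (W a) (W b)) f := by
    intro a b
    rw [pr_sy_mat, Matrix.mul_apply, ← hM]
    simp only [Matrix.mul_apply, Matrix.transpose_apply, Finset.sum_mul]
    rw [Finset.sum_comm]
  have h1 : (W * M * W.transpose).det = det6 f * d3 u v w ^ 2 := by
    rw [Matrix.det_mul, Matrix.det_mul, Matrix.det_transpose, hdM, hdW]
    ring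
  have e0 : W 0 = u := rfl
  have e1 : W 1 = v := rfl
  have e2 : W 2 = w := rfl
  rw [← h1, Matrix.det_fin_three, hG, hG, hG, hG, hG, hG, hG, hG, hG, e0, e1, e2, sy_comm v u, sy_comm w u, sy_comm w v]
  ring

/-- three independent forms span -/
theorem exists_comb {u v w : Fin 3 → K} (h : d3 u v w ≠ 0) (x : Fin 3 → K) :
    ∃ a b c : K, x = a • u + b • v + c • w := by
  refine ⟨d3 x v w / d3 u v w, d3 u x w / d3 u v w, d3 u v x / d3 u v w, ?_⟩
  funext t
  simp only [Pi.add_apply, Pi.smul_apply, smul_eq_mul]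
  field_simp
  fin_cases t <;> simp [d3] <;> ring

theorem eq_zero_of_gram {u v w : Fin 3 → K} (h : d3 u v w ≠ 0) (f : Fin 6 → K)
    (h1 : pr (sy u u) f = 0) (h2 : pr (sy v v) f = 0) (h3 : pr (sy w w) f = 0) (h4 : pr (sy u v) f = 0)
    (h5 : pr (sy u w) f = 0) (h6 : pr (sy v w) f = 0) : f = 0 := by
  have h4' : pr (sy v u) f = 0 := by rw [sy_comm, h4]
  have h5' : pr (sy w u) f = 0 := by rw [sy_comm, h5]
  have h6' : pr (sy w v) f = 0 := by rw [sy_comm, h6]
  have hall : ∀ x y : Fin 3 → K, pr (sy x y) f = 0 := by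
    intro x y
    obtain ⟨a, b, c, rfl⟩ := exists_comb h x
    obtain ⟨a', b', c', rfl⟩ := exists_comb h y
    have e : ∀ z : Fin 3 → K, pr (sy z (a' • u + b' • v + c' • w)) f =
        a' * pr (sy z u) f + b' * pr (sy z v) f + c' * pr (sy z w) f := by
      intro z
      rw [sy_comm, sy_add, sy_add, sy_smul, sy_smul, sy_smul, pr_add_left, pr_add_left, pr_smul_left,
        pr_smul_left, pr_smul_left, sy_comm u, sy_comm v, sy_comm w]
    rw [sy_add, sy_add, sy_smul, sy_smul, sy_smul, pr_add_left, pr_add_left, pr_smul_left,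
        pr_smul_left, pr_smul_left, e, e, e, h1, h2, h3, h4, h5, h6, h4', h5', h6']
    ring
  funext t
  fin_cases t
  · simpa [pr, sy, Fin.sum_univ_succ] using hall ![1, 0, 0] ![1, 0, 0]
  · simpa [pr, sy, Fin.sum_univ_succ] using hall ![0, 1, 0] ![0, 1, 0]
  · simpa [pr, sy, Fin.sum_univ_succ] using hall ![0, 0, 1] ![0, 0, 1]
  · simpa [pr, sy, Fin.sum_univ_succ] using hall ![1, 0, 0] ![0, 1, 0]
  · simpa [pr, sy, Fin.sum_univ_succ] using hall ![1, 0, 0] ![0, 0, 1]
  · simpa [pr, sy, Fin.sum_univ_succ] using hall ![0, 1, 0] ![0, 0, 1]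

/-- a point with given values -/
theorem exists_pt {u v w : Fin 3 → K} (h : d3 u v w ≠ 0) (a b c : K) :
    ∃ x : Fin 3 → K, dt u x = a ∧ dt v x = b ∧ dt w x = c := by
  have key : ∀ u v w : Fin 3 → K, d3 u v w ≠ 0 →
      (Matrix.of ![u, v, w]).det ≠ 0 := by
    intro u v w h
    rw [Matrix.det_fin_three]
    simp only [Matrix.of_apply, Matrix.cons_val_zero, Matrix.cons_val_one, Matrix.cons_val_two]
    intro h'
    apply h
    simp only [d3]
    simp at h'
    linear_combination h'
  have hdet := key u v w h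
  have hu : IsUnit (Matrix.of ![u, v, w]).det := isUnit_iff_ne_zero.2 hdet
  refine ⟨(Matrix.of ![u, v, w])⁻¹.mulVec ![a, b, c], ?_⟩
  have h1 : (Matrix.of ![u, v, w]).mulVec ((Matrix.of ![u, v, w])⁻¹.mulVec ![a, b, c]) = ![a, b, c] := by
    rw [Matrix.mulVec_mulVec, Matrix.mul_nonsing_inv _ hu, Matrix.one_mulVec]
  refine ⟨?_, ?_, ?_⟩
  · have := congrFun h1 0
    simpa [Matrix.mulVec, dotProduct, dt] using this
  · have := congrFun h1 1
    simpa [Matrix.mulVec, dotProduct, dt] using this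
  · have := congrFun h1 2
    simpa [Matrix.mulVec, dotProduct, dt] using this

end Pool.Agent.QP
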