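import Pool.Agent.Helper16.QP.GDefs
import Pool.Agent.Helper16.FIN.Chart

/-!
# QP: absolute values which extend a place

`Pool.Agent.Chart` has `fld`, `dg`, `crd`, `val`, `hgt`, `lam` for points in projective coordinates.
-/

set_option autoImplicit false

namespace Pool.Agent.QP

open NumberField
open Pool.Agent.Helper64.Vojta (Pl nv)

/-- `N` is a power of an absolute value of `L`, and extends the normalised absolute value of `k` at `v`. -/
structure AV {k : Type*} [Field k] [NumberField k] {L : Type*} [Field L] [Algebra k L] (v : Pl k) (N : L → ℝ) : Prop where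
  nonneg : ∀ x, 0 ≤ N x
  zero : N 0 = 0
  pos : ∀ x, x ≠ 0 → 0 < N x
  mul : ∀ x y, N (x * y) = N x * N y
  add : ∀ x y, N (x + y) ≤ 4 * max (N x) (N y)
  ext : ∀ x : k, N (algebraMap k L x) = nv v x

/-- the norm of a vector -/
noncomputable def mx {L : Type*} (N : L → ℝ) (X : Fin 3 → L) : ℝ := ⨆ a, N (X a)

/-- a linear form over `k` as a linear form over `L` -/
def up {k : Type*} [Field k] (L : Type*) [Field L] [Algebra k L] (m : Fin 3 → k) : Fin 3 → L := fun a => algebraMap k L (m a)

end Pool.Agent.QP
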