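import Pool.Agent.Helper16.QP.LDefs

/-!
# QP: statements of the blocks LOC, DAT, NI, NII (do not import; copy your statement)
-/

set_option autoImplicit false

namespace Pool.Agent.QP

open NumberField Filter Module
open Pool.Agent.Helper64.Vojta (Pl nv)
open Pool.Agent.V2
open Pool.Agent.Chart (fld dg crd val hgt lam)

universe u

/-! ### LOC -/

section LOC

variable {k : Type*} [Field k] [NumberField k]

/-- Gauss. PROOF (upper bound: `add`, `mul`; lower bound: `|X i| = |X|`, `|Y j| = |Y|`, the coordinates `i i`, `j j`, `i j` of `F`). -/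
theorem cmp (v : Pl k) : ∃ C : ℝ, ∀ (L : Type u) [Field L] [Algebra k L] (N : L → ℝ), AV v N → ∀ X Y : Fin 3 → L, X ≠ 0 → Y ≠ 0 →
    ∀ F : Fin 6 → k, (∀ a, algebraMap k L (F a) = ten X Y a) →
      |Real.log (vn v F) - (Real.log (mx N X) + Real.log (mx N Y))| ≤ C := sorry

/-- `a i` is the limit of `(log |X n| - log |l_i(X n)|) / vH (F n)`, `b i` the same for `Y n`. -/
theorem loc (U : Ultrafilter ℕ) (F : ℕ → Fin 6 → k) (hH : Tendsto (fun n => vH (F n)) (U : Filter ℕ) atTop) (v : Pl k)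
    (L : ℕ → Type u) [∀ n, Field (L n)] [∀ n, Algebra k (L n)] (N : ∀ n, L n → ℝ) (hN : ∀ n, AV v (N n))
    (X Y : ∀ n, Fin 3 → L n) (hX : ∀ n, X n ≠ 0) (hY : ∀ n, Y n ≠ 0)
    (hF : ∀ n a, algebraMap k (L n) (F n a) = ten (X n) (Y n) a) {q : ℕ} (l : Fin q → Fin 3 → k) (hl : GP l)
    (hlX : ∀ n i, dt (up (L n) (l i)) (X n) ≠ 0) (hlY : ∀ n i, dt (up (L n) (l i)) (Y n) ≠ 0) :
    ∃ a b : Fin q → ℝ, Plc (van U F).mkQ l (sz U F v) a b ∧
      (∀ m : Fin 3 → k, (∀ᶠ n in (U : Filter ℕ), dt (up (L n) m) (X n) = 0) →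
        ∀ i j, d3 m (l i) (l j) ≠ 0 → a i = 0 ∨ a j = 0) ∧
      (∀ m : Fin 3 → k, (∀ᶠ n in (U : Filter ℕ), dt (up (L n) m) (Y n) = 0) →
        ∀ i j, d3 m (l i) (l j) ≠ 0 → b i = 0 ∨ b j = 0) := sorry

end LOC

/-! ### DAT -/

/-- PROOF. `fld x` is Galois over `k` of degree `1` or `2`; `σ` a generator; `w` one place above `v`, `N = (nv w) ^ (card (above v) / dg x)`;
`Helper36.SB.exists_gal`, `gal_log`. The height of `F`: upper bounds only. -/
theorem data {k : Type u} [Field k] [NumberField k] : ∃ C : ℝ, ∀ x : Fin 3 → AlgebraicClosure k, (∃ j, x j = 1) → dg x ≤ 2 →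
    ∃ (σ : fld x ≃ₐ[k] fld x) (F : Fin 6 → k),
      (∀ a, algebraMap k (fld x) (F a) = ten (crd x) (fun i => σ (crd x i)) a) ∧ vH F ≤ 2 * hgt x + C ∧
      ∀ v : Pl k, ∃ N : fld x → ℝ, AV v N ∧ ∀ m : Fin 3 → k, val m x ≠ 0 →
        2 * lam m v x = (Real.log (mx N (crd x)) - Real.log (N (val m x))) +
          (Real.log (mx N (fun i => σ (crd x i))) - Real.log (N (σ (val m x)))) := sorry

/-! ### NI -/

/-- The germ lies on a line. PROOF. `i ≈ j` if `d3 n (l i) (l j) = 0`; the classes have at most two elements, at most two of them have two;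
`Tot` = (sum over one element of each class) + (at most two sizes); the first sum is at most an `Ind` if `finrank K Q = 3`, at most twice an
`Ind` always; and `finrank K Q ≤ 3`. -/
theorem line_case {K : Type*} [Field K] [CharZero K] {q : ℕ} (l : Fin q → Fin 3 → K) (hl : GP l)
    {Q : Type*} [AddCommGroup Q] [Module K Q] (Φ : (Fin 6 → K) →ₗ[K] Q) (hΦ : Function.Surjective Φ) (hq : 4 ≤ q)
    (hE : ∀ i, E Φ l i ≠ 0) (n : Fin 3 → K) (hn0 : n ≠ 0) (hn : ∀ m, Φ (sy n m) = 0)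
    (hZ : ∀ t : Fin 6 → Fin q, Function.Injective t → ¬ (n ∈ Submodule.span K {l (t 0), l (t 1)} ∧
      n ∈ Submodule.span K {l (t 2), l (t 3)} ∧ n ∈ Submodule.span K {l (t 4), l (t 5)}))
    {ι : Type*} [DecidableEq ι] (P : Finset ι) (s : ι → Q → ℝ) (a b : ι → Fin q → ℝ)
    (hp : ∀ v ∈ P, Plc Φ l (s v) (a v) (b v))
    (ha : ∀ v ∈ P, ∀ i j, d3 n (l i) (l j) ≠ 0 → a v i = 0 ∨ a v j = 0)
    (hb : ∀ v ∈ P, ∀ i j, d3 n (l i) (l j) ≠ 0 → b v i = 0 ∨ b v j = 0)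
    (sch : ∀ (n : ι → ℕ) (w : ∀ v, Fin (n v) → Q), (∀ v ∈ P, LinearIndependent K (w v)) →
      ∑ v ∈ P, ∑ i, s v (w v i) ≤ finrank K Q)
    (res : ∀ e : Q, e ≠ 0 → ∑ v ∈ P, s v e ≤ 1) : ∑ v ∈ P, Tot Φ l (s v) ≤ 6 := sorry

/-! ### NII -/

/-- PROOF. The germ `crd (x n)` in `E^3`, `SCH` over `E` with `ι = Fin 3`: `Q' = Qt U _` has dimension at most 3; at each place of `E` at most
two lines are close (GP); dimension 3: their classes are independent, the sum is at most 3; dimension at most 2: at most twice the larger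
one, the sum is at most 4. -/
theorem fixed_field {k : Type u} [Field k] [NumberField k] {q : ℕ} (l : Fin q → Fin 3 → k) (hl : GP l) (hq : 4 ≤ q)
    (S : Finset (Pl k)) (U : Ultrafilter ℕ) (x : ℕ → Fin 3 → AlgebraicClosure k) (h1 : ∀ n, ∃ j, x n j = 1)
    (E : IntermediateField k (AlgebraicClosure k)) (hE : ∀ᶠ n in (U : Filter ℕ), fld (x n) = E)
    (hval : ∀ n i, val (l i) (x n) ≠ 0) (hh : Tendsto (fun n => hgt (x n)) (U : Filter ℕ) atTop) {ε : ℝ} (hε : 0 < ε) :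
    ∀ᶠ n in (U : Filter ℕ), ∑ ν ∈ S, ∑ i, lam (l i) ν (x n) ≤ (4 + ε) * hgt (x n) := sorry

/-! ### The main theorem -/

theorem qp {k : Type u} [Field k] [NumberField k] {q : ℕ} (l : Fin q → Fin 3 → k) (hl : GP l) (S : Finset (Pl k))
    {ε : ℝ} (hε : 0 < ε) : ∃ C : ℝ, ∀ x : Fin 3 → AlgebraicClosure k, (∃ j, x j = 1) → dg x ≤ 2 → (∀ i, val (l i) x ≠ 0) →
      (∀ m : Fin 3 → k, m ≠ 0 → (∃ t : Fin 6 → Fin q, Function.Injective t ∧ m ∈ Submodule.span k {l (t 0), l (t 1)} ∧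
        m ∈ Submodule.span k {l (t 2), l (t 3)} ∧ m ∈ Submodule.span k {l (t 4), l (t 5)}) → val m x ≠ 0) →
      ∑ ν ∈ S, ∑ i, lam (l i) ν x ≤ (6 + ε) * hgt x + C := sorry

end Pool.Agent.QP
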