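import Pool.Agent.Helper16.QP.Comb
import Pool.Agent.Helper61.QP.Sch
import Pool.Agent.Helper17.QP.NII
import Pool.Agent.Helper64.QP.Loc

/-!
# QP: assembly
-/

set_option autoImplicit false

namespace Pool.Agent.QP

open NumberField Filter Module IntermediateField
open Pool.Agent.Helper64.Vojta (Pl nv)
open Pool.Agent.V2
open Pool.Agent.Chart (fld dg crd val hgt lam)

universe u

/-- the condition on the points -/
def Off {k : Type u} [Field k] [NumberField k] {q : ℕ} (l : Fin q → Fin 3 → k) (x : Fin 3 → AlgebraicClosure k) : Prop :=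
  ∀ m : Fin 3 → k, m ≠ 0 → (∃ t : Fin 6 → Fin q, Function.Injective t ∧ m ∈ Submodule.span k {l (t 0), l (t 1)} ∧
        m ∈ Submodule.span k {l (t 2), l (t 3)} ∧ m ∈ Submodule.span k {l (t 4), l (t 5)}) → val m x ≠ 0

/-- the statement of block EF -/
def EFst (k : Type u) [Field k] [NumberField k] : Prop :=
  ∀ (U : Ultrafilter ℕ) (F : ℕ → Fin 6 → k) (_hH : Tendsto (fun n => vH (F n)) (U : Filter ℕ) atTop)
    (_hdet : ∀ᶠ n in (U : Filter ℕ), det6 (F n) = 0) (_hd : finrank k (Qt U F) = 4)
    (_hne : ∃ f : Fin 6 → k, (∀ g ∈ van U F, pr g f = 0) ∧ det6 f ≠ 0) (P : Finset (Pl k)),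
    (∀ e : Pl k → Qt U F, (∀ v ∈ P, e v ≠ 0) → ∑ v ∈ P, sz U F v (e v) ≤ 2) ∨
    (∀ R : Pl k → ℝ, (∀ v ∈ P, (∃ g : Fin 6 → k, g ∉ van U F ∧ R v = sz U F v ((van U F).mkQ g)) ∨
        ∃ g g' : Fin 6 → k, LinearIndependent k ![(van U F).mkQ g, (van U F).mkQ g'] ∧
          (∃ f : Fin 6 → k, (∀ h ∈ van U F, pr h f = 0) ∧ pr g f = 0 ∧ pr g' f = 0 ∧ det6 f ≠ 0) ∧
          R v = sz U F v ((van U F).mkQ g) + sz U F v ((van U F).mkQ g')) →
      ∑ v ∈ P, R v ≤ 3)

section

variable {k : Type u} [Field k] [NumberField k] {q : ℕ}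

omit [NumberField k] in
theorem vl_eq_pr (g f : Fin 6 → k) : vl g f = pr g f := rfl

omit [NumberField k] in
theorem alg_pr {L : Type*} [Field L] [Algebra k L] (l m : Fin 3 → k) (F : Fin 6 → k) (X Y : Fin 3 → L)
    (hF : ∀ a, algebraMap k L (F a) = ten X Y a) :
    algebraMap k L (pr (sy l m) F) = dt (up L l) X * dt (up L m) Y + dt (up L m) X * dt (up L l) Y := by
  rw [← pr_sy_ten]
  simp only [pr, map_sum, map_mul, hF]
  refine Finset.sum_congr rfl fun a _ => ?_
  congr 1
  fin_cases a <;> simp [sy, up]

omit [NumberField k] in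
theorem val_eq_dt (m : Fin 3 → k) (x : Fin 3 → AlgebraicClosure k) : val m x = dt (up (fld x) m) (crd x) := rfl

omit [NumberField k] in
theorem dt_sigma (x : Fin 3 → AlgebraicClosure k) (σ : fld x →ₐ[k] fld x) (m : Fin 3 → k) :
    dt (up (fld x) m) (fun a => σ (crd x a)) = σ (val m x) := by
  rw [val_eq_dt]
  simp only [dt, up, map_sum, map_mul, σ.commutes]

theorem main (hEF : EFst k) (l : Fin q → Fin 3 → k) (hl : GP l) (hq3 : 3 ≤ q) (S : Finset (Pl k))
    {ε : ℝ} (hε : 0 < ε) : ∃ C : ℝ, ∀ x : Fin 3 → AlgebraicClosure k, Off l x → (∃ j, x j = 1) → dg x ≤ 2 →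
      (∀ i, val (l i) x ≠ 0) → ∑ ν ∈ S, ∑ i, lam (l i) ν x ≤ (6 + ε) * hgt x + C := by
  classical
  by_contra hcon
  push Not at hcon
  obtain ⟨U, x, c, hx, -, hH, hh, hloc, -, h6⟩ := germ l hl hq3 S ε hε (Off l) hcon
  choose a b hplc hagn using hloc
  set F : ℕ → Fin 6 → k := fun n => (c n).F with hFdef
  set σ : ∀ n, fld (x n) →ₐ[k] fld (x n) := fun n => (c n).σ with hσdef
  have hF : ∀ n a, algebraMap k (fld (x n)) (F n a) = ten (crd (x n)) (fun a => σ n (crd (x n) a)) a := fun n => (c n).hF
  set Φ := (van U F).mkQ with hΦ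
  have hsurj : Function.Surjective Φ := Submodule.mkQ_surjective _
  have hker : ∀ g, Φ g = 0 ↔ g ∈ van U F := fun g => by rw [hΦ, Submodule.mkQ_apply, Submodule.Quotient.mk_eq_zero]
  have hpr : ∀ n (m m' : Fin 3 → k), algebraMap k (fld (x n)) (pr (sy m m') (F n)) =
      val m (x n) * σ n (val m' (x n)) + val m' (x n) * σ n (val m (x n)) := by
    intro n m m'
    rw [alg_pr m m' (F n) _ _ (hF n), dt_sigma, dt_sigma, ← val_eq_dt, ← val_eq_dt]
  have hinj : ∀ n, Function.Injective (algebraMap k (fld (x n))) := fun n => (algebraMap k (fld (x n))).injective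
  have hE : ∀ i, E Φ l i ≠ 0 := by
    intro i h
    have h1 : sy (l i) (l i) ∈ van U F := (hker _).1 h
    obtain ⟨n, hn⟩ := (show ∀ᶠ n in (U : Filter ℕ), vl (sy (l i) (l i)) (F n) = 0 from h1).exists
    rw [vl_eq_pr] at hn
    have h2 := hpr n (l i) (l i)
    rw [hn, map_zero] at h2
    have h3 := (hx n).2.2.2.1 i
    have h4 : σ n (val (l i) (x n)) ≠ 0 := (map_ne_zero_iff _ (σ n).injective).2 h3
    have h5 : (2 : fld (x n)) * (val (l i) (x n) * σ n (val (l i) (x n))) = 0 := by linear_combination -h2
    exact mul_ne_zero two_ne_zero (mul_ne_zero h3 h4) h5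
  rcases Nat.lt_or_ge q 4 with hq | hq
  · have h1 : ∑ v ∈ S, Tot Φ l (sz U F v) ≤ q := by
      unfold Tot
      rw [Finset.sum_comm]
      refine (Finset.sum_le_sum fun i _ => res U F hH S _ (hE i)).trans ?_
      simp
    have h2 : (q : ℝ) ≤ 3 := by exact_mod_cast (by omega : q ≤ 3)
    linarith
  have hsch : ∀ (n : Pl k → ℕ) (w : ∀ v, Fin (n v) → Qt U F), (∀ v ∈ S, LinearIndependent k (w v)) →
      ∑ v ∈ S, ∑ i, sz U F v (w v i) ≤ finrank k (Qt U F) := fun n w hw => sch U F hH S n w hw
  have hres : ∀ e : Qt U F, e ≠ 0 → ∑ v ∈ S, sz U F v e ≤ 1 := fun e he => res U F hH S e he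
  by_cases hNR : finrank k (Qt U F) ≤ 3 → ∀ i j, i ≠ j → 2 ≤ finrank k (Submodule.span k {E Φ l i, B Φ l i j, E Φ l j})
  · have h7 := comb (ι := Pl k) l Φ hsurj hl hq hE S (fun v => sz U F v) a b (fun v _ => hplc v) hsch hres hNR ?_
    · linarith
    · intro hd hex
      have hdet : ∀ᶠ n in (U : Filter ℕ), det6 (F n) = 0 := by
        refine Eventually.of_forall fun n => ?_
        apply hinj n
        rw [map_zero]
        have h1 : algebraMap k (fld (x n)) (det6 (F n)) = det6 (fun a => algebraMap k (fld (x n)) (F n a)) := by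
          simp only [det6, map_add, map_sub, map_mul]
        have h2 : (fun a => algebraMap k (fld (x n)) (F n a)) = ten (crd (x n)) (fun a => σ n (crd (x n) a)) :=
          funext (hF n)
        rw [h1, h2, det6_ten]
      obtain ⟨k1, k2, f, hf1, hf2, hf3, hf4⟩ := hex
      rcases hEF U F hH hdet hd ⟨f, fun g hg => hf1 g ((hker g).2 hg), hf4⟩ S with h | h
      · exact Or.inl h
      · right
        intro R hR
        refine h R fun v hv => ?_
        rcases hR v hv with ⟨i, hi⟩ | ⟨i, j, hnr, ⟨f, hf1, hf2, hf3, hf4⟩, hij⟩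
        · exact Or.inl ⟨sy (l i) (l i), fun h' => hE i ((hker _).2 h'), hi⟩
        · right
          refine ⟨sy (l i) (l i), sy (l j) (l j), ?_, ⟨f, fun g hg => hf1 g ((hker g).2 hg), hf2, hf3, hf4⟩, hij⟩
          exact Pool.Agent.QP36.not_rel l Φ hE hnr
  · push Not at hNR
    obtain ⟨hd3, i, j, hij, hsp⟩ := hNR
    -- the relations
    have hcoef : ∀ y : Qt U F, y ∈ Submodule.span k {E Φ l i, B Φ l i j, E Φ l j} → ∃ c : k, y = c • E Φ l j := by
      intro y hy
      by_contra hc
      push Not at hc
      have hli : LinearIndependent k ![E Φ l j, y] := by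
        rw [LinearIndependent.pair_iff]
        intro s t hst
        have ht : t = 0 := by
          by_contra ht
          apply hc (-(s / t))
          have h7 : t • y = -(s • E Φ l j) := eq_neg_of_add_eq_zero_right hst
          have : y = t⁻¹ • (t • y) := by rw [smul_smul, inv_mul_cancel₀ ht, one_smul]
          rw [this, h7, smul_neg, smul_smul, neg_smul, div_eq_inv_mul]
        subst ht
        rw [zero_smul, add_zero] at hst
        exact ⟨(smul_eq_zero.1 hst).resolve_right (hE j), rfl⟩
      have h1 : 2 ≤ finrank k (Submodule.span k {E Φ l i, B Φ l i j, E Φ l j}) := by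
        have h2 := finrank_span_eq_card hli
        rw [Fintype.card_fin] at h2
        refine le_trans (le_of_eq h2.symm) ?_
        apply Submodule.finrank_mono
        rw [Submodule.span_le]
        rintro _ ⟨t, rfl⟩
        fin_cases t
        · exact Submodule.subset_span (by simp)
        · exact hy
      omega
    obtain ⟨α, hα⟩ := hcoef (E Φ l i) (Submodule.subset_span (by simp))
    obtain ⟨β, hβ⟩ := hcoef (B Φ l i j) (Submodule.subset_span (by simp))
    have hα' : ∀ᶠ n in (U : Filter ℕ), pr (sy (l i) (l i)) (F n) = α * pr (sy (l j) (l j)) (F n) := by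
      have h1 : sy (l i) (l i) - α • sy (l j) (l j) ∈ van U F := by
        rw [← hker, map_sub, map_smul]
        exact sub_eq_zero.2 hα
      filter_upwards [show ∀ᶠ n in (U : Filter ℕ), vl _ (F n) = 0 from h1] with n hn
      rw [vl_eq_pr, pr_sub_left, pr_smul_left] at hn
      exact sub_eq_zero.1 hn
    have hβ' : ∀ᶠ n in (U : Filter ℕ), pr (sy (l i) (l j)) (F n) = β * pr (sy (l j) (l j)) (F n) := by
      have h1 : sy (l i) (l j) - β • sy (l j) (l j) ∈ van U F := by
        rw [← hker, map_sub, map_smul]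
        exact sub_eq_zero.2 hβ
      filter_upwards [show ∀ᶠ n in (U : Filter ℕ), vl _ (F n) = 0 from h1] with n hn
      rw [vl_eq_pr, pr_sub_left, pr_smul_left] at hn
      exact sub_eq_zero.1 hn
    -- the ratio
    set g : ∀ n, fld (x n) := fun n => val (l i) (x n) / val (l j) (x n) with hg
    have hquad : ∀ᶠ n in (U : Filter ℕ), g n * σ n (g n) = algebraMap k _ α ∧ g n + σ n (g n) = algebraMap k _ (2 * β) := by
      filter_upwards [hα', hβ'] with n h1 h2
      have e1 := hpr n (l i) (l i)
      have e2 := hpr n (l i) (l j)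
      have e3 := hpr n (l j) (l j)
      have n1 := (hx n).2.2.2.1 j
      have n2 : σ n (val (l j) (x n)) ≠ 0 := (map_ne_zero_iff _ (σ n).injective).2 n1
      rw [h1, map_mul, e3] at e1
      rw [h2, map_mul, e3] at e2
      have e1' : val (l i) (x n) * σ n (val (l i) (x n)) =
          algebraMap k (fld (x n)) α * (val (l j) (x n) * σ n (val (l j) (x n))) := by
        have : (2 : fld (x n)) * (val (l i) (x n) * σ n (val (l i) (x n)) -
          algebraMap k (fld (x n)) α * (val (l j) (x n) * σ n (val (l j) (x n)))) = 0 := by linear_combination -e1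
        exact sub_eq_zero.1 ((mul_eq_zero.1 this).resolve_left two_ne_zero)
      constructor
      · rw [hg]
        simp only [map_div₀]
        field_simp
        linear_combination e1'
      · rw [hg]
        simp only [map_div₀, map_mul, map_ofNat]
        field_simp
        linear_combination -e2
    obtain ⟨n0, h01, h02⟩ := hquad.exists
    have hroot : ∀ᶠ n in (U : Filter ℕ), (g n : AlgebraicClosure k) = (g n0 : AlgebraicClosure k) ∨
        (g n : AlgebraicClosure k) = (σ n0 (g n0) : fld (x n0)) := by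
      filter_upwards [hquad] with n hn
      have e1 : (g n : AlgebraicClosure k) * (σ n (g n) : fld (x n)) = algebraMap k _ α := by
        have := congrArg (fun z : fld (x n) => (z : AlgebraicClosure k)) hn.1
        exact this
      have e2 : (g n : AlgebraicClosure k) + (σ n (g n) : fld (x n)) = algebraMap k _ (2 * β) := by
        have := congrArg (fun z : fld (x n) => (z : AlgebraicClosure k)) hn.2
        exact this
      have e3 : (g n0 : AlgebraicClosure k) * (σ n0 (g n0) : fld (x n0)) = algebraMap k _ α := by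
        have := congrArg (fun z : fld (x n0) => (z : AlgebraicClosure k)) h01
        exact this
      have e4 : (g n0 : AlgebraicClosure k) + (σ n0 (g n0) : fld (x n0)) = algebraMap k _ (2 * β) := by
        have := congrArg (fun z : fld (x n0) => (z : AlgebraicClosure k)) h02
        exact this
      have : ((g n : AlgebraicClosure k) - g n0) * ((g n : AlgebraicClosure k) - (σ n0 (g n0) : fld (x n0))) = 0 := by
        linear_combination (g n : AlgebraicClosure k) * e2 - e1 - (g n : AlgebraicClosure k) * e4 + e3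
      rcases mul_eq_zero.1 this with h | h
      · exact Or.inl (sub_eq_zero.1 h)
      · exact Or.inr (sub_eq_zero.1 h)
    obtain ⟨γ, hγ⟩ : ∃ γ : AlgebraicClosure k, ∀ᶠ n in (U : Filter ℕ), (g n : AlgebraicClosure k) = γ := by
      rcases Ultrafilter.eventually_or.1 hroot with h | h
      · exact ⟨_, h⟩
      · exact ⟨_, h⟩
    by_cases hγk : ∃ c : k, algebraMap k (AlgebraicClosure k) c = γ
    · obtain ⟨c', rfl⟩ := hγk
      set m : Fin 3 → k := l i - c' • l j with hm
      have hm0 : m ≠ 0 := by
        intro h0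
        obtain ⟨t, ht1, ht2⟩ := exists_third hq i j
        have h1 : l i = c' • l j := sub_eq_zero.1 h0
        apply hl i j t hij ht1 ht2
        rw [h1]
        simp only [d3, Pi.smul_apply, smul_eq_mul]
        ring
      have hmx : ∀ᶠ n in (U : Filter ℕ), val m (x n) = 0 := by
        filter_upwards [hγ] with n hn
        have n1 := (hx n).2.2.2.1 j
        have h1 : g n = algebraMap k (fld (x n)) c' := by
          apply Subtype.ext
          rw [hn]
          rfl
        have h2 : val (l i) (x n) = algebraMap k (fld (x n)) c' * val (l j) (x n) := by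
          rw [← h1, hg]
          field_simp
        have h3 : val m (x n) = val (l i) (x n) - algebraMap k (fld (x n)) c' * val (l j) (x n) := by
          rw [val_eq_dt, val_eq_dt, val_eq_dt, hm]
          simp only [dt, up, Pi.sub_apply, Pi.smul_apply, smul_eq_mul, map_sub, map_mul, sub_mul, Finset.sum_sub_distrib,
            Finset.mul_sum, mul_assoc]
        rw [h3, h2, sub_self]
      have hvan : ∀ m', sy m m' ∈ van U F := by
        intro m'
        show ∀ᶠ n in (U : Filter ℕ), vl (sy m m') (F n) = 0
        filter_upwards [hmx] with n hn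
        apply hinj n
        rw [vl_eq_pr, hpr, hn, map_zero, zero_mul, mul_zero, add_zero, map_zero]
      have hspan : ∀ i' j' : Fin q, d3 m (l i') (l j') ≠ 0 → i' ≠ j' ∧ m ∉ Submodule.span k {l i', l j'} := by
        intro i' j' h
        constructor
        · rintro rfl
          apply h
          simp only [d3]
          ring
        · intro h'
          exact h (d3_eq_zero_of_span h' (Submodule.subset_span (by simp)) (Submodule.subset_span (by simp)))
      have h7 := line_case l hl Φ hsurj hq hE m hm0 (fun m' => (hker _).2 (hvan m')) ?_ S (fun v => sz U F v) a b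
        (fun v _ => hplc v) (fun v _ i' j' h => (hagn v m hmx i' j' (hspan i' j' h).1 (hspan i' j' h).2).1)
        (fun v _ i' j' h => (hagn v m hmx i' j' (hspan i' j' h).1 (hspan i' j' h).2).2) hsch hres
      · linarith
      · rintro t ht ⟨h1, h2, h3⟩
        obtain ⟨n, hn⟩ := hmx.exists
        exact (hx n).1 m hm0 ⟨t, ht, h1, h2, h3⟩ hn
    · -- the field is fixed
      have hfld : ∀ᶠ n in (U : Filter ℕ), fld (x n) = k⟮γ⟯ := by
        filter_upwards [hγ] with n hn
        have hle : k⟮γ⟯ ≤ fld (x n) := by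
          rw [adjoin_simple_le_iff, ← hn]
          exact (g n).2
        have hfd : FiniteDimensional k (fld (x n)) := FiniteDimensional.right ℚ k (fld (x n))
        have hfd' : FiniteDimensional k k⟮γ⟯ :=
          adjoin.finiteDimensional (Algebra.IsIntegral.isIntegral γ)
        have h2 : 2 ≤ finrank k k⟮γ⟯ := by
          have h3 : 0 < finrank k k⟮γ⟯ := finrank_pos
          have h4 : finrank k k⟮γ⟯ ≠ 1 := by
            intro h5
            rw [finrank_adjoin_simple_eq_one_iff] at h5
            exact hγk h5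
          omega
        have h3 : finrank k (fld (x n)) ≤ 2 := (hx n).2.2.1
        exact (eq_of_le_of_finrank_le hle (h3.trans h2)).symm
      have h8 := fixed_field l hl hq S U x (fun n => (hx n).2.1) k⟮γ⟯ hfld (fun n => (hx n).2.2.2.1) hh hε
      obtain ⟨n, hn, hn'⟩ := (h8.and (hh.eventually_ge_atTop 0)).exists
      have h9 := (hx n).2.2.2.2
      have h10 : (0 : ℝ) ≤ n := Nat.cast_nonneg n
      linarith

end

end Pool.Agent.QP
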