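import Pool.Agent.Helper16.QP.P2
import Pool.Agent.Helper97.QP.Loc

/-!
# QP, block NI: the germ lies on a line
-/

set_option autoImplicit false

namespace Pool.Agent.QP

open Module

section aux

variable {K : Type*} [Field K]

theorem mem_span_of_d3 {n u v w : Fin 3 → K} (h : d3 u v w ≠ 0) (h0 : d3 n u v = 0) : n ∈ Submodule.span K {u, v} := by
  obtain ⟨a, b, c, rfl⟩ := exists_comb h n
  have h1 : d3 (a • u + b • v + c • w) u v = c * d3 u v w := by
    simp only [d3, Pi.add_apply, Pi.smul_apply, smul_eq_mul]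
    ring
  rw [h1] at h0
  have hc : c = 0 := (mul_eq_zero.1 h0).resolve_right h
  rw [hc, zero_smul, add_zero]
  exact Submodule.mem_span_pair.2 ⟨a, b, rfl⟩

theorem d3_eq_zero_of_span {u v x y z : Fin 3 → K} (hx : x ∈ Submodule.span K {u, v}) (hy : y ∈ Submodule.span K {u, v})
    (hz : z ∈ Submodule.span K {u, v}) : d3 x y z = 0 := by
  obtain ⟨a, b, rfl⟩ := Submodule.mem_span_pair.1 hx
  obtain ⟨c, d, rfl⟩ := Submodule.mem_span_pair.1 hy
  obtain ⟨e, f, rfl⟩ := Submodule.mem_span_pair.1 hz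
  simp only [d3, Pi.add_apply, Pi.smul_apply, smul_eq_mul]
  ring

/-- `x` is a combination of `n` and `u` if the three are dependent, and `n`, `u` are not -/
theorem mem_span_of_cr {n u x : Fin 3 → K} (h : cr n u ≠ 0) (h0 : d3 n u x = 0) : x ∈ Submodule.span K {n, u} := by
  obtain ⟨t, ht⟩ := Function.ne_iff.1 h
  obtain ⟨w, hw⟩ : ∃ w : Fin 3 → K, d3 n u w ≠ 0 := by
    refine ⟨Pi.single t 1, ?_⟩
    rw [← dt_cr]
    simpa [dt, Pi.single_apply] using ht
  refine mem_span_of_d3 hw ?_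
  have : d3 x n u = d3 n u x := by simp only [d3]; ring
  rw [this, h0]

variable {Q : Type*} [AddCommGroup Q] [Module K Q]

theorem ind0 {s : Q → ℝ} {r : ℝ} (hr : r ≤ 0) : Ind K s r :=
  ⟨0, Fin.elim0, linearIndependent_empty_type, by simpa using hr⟩

theorem ind1 {s : Q → ℝ} {r : ℝ} {x : Q} (h : x ≠ 0) (hr : r ≤ s x) : Ind K s r := by
  refine ⟨1, fun _ => x, ?_, by simpa using hr⟩
  exact linearIndependent_unique_iff.2 h

end aux

variable {K : Type*} [Field K] [CharZero K] {q : ℕ} {l : Fin q → Fin 3 → K}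
variable {Q : Type*} [AddCommGroup Q] [Module K Q] {Φ : (Fin 6 → K) →ₗ[K] Q}

/-- multiplication by `n` -/
def mulN (n : Fin 3 → K) : (Fin 3 → K) →ₗ[K] (Fin 6 → K) where
  toFun m := sy n m
  map_add' m m' := by rw [sy_comm, sy_add, sy_comm m, sy_comm m']
  map_smul' c m := by rw [sy_comm, sy_smul, sy_comm m, RingHom.id_apply]

theorem mulN_inj {n : Fin 3 → K} (hn : n ≠ 0) : Function.Injective (mulN n) := by
  rw [← LinearMap.ker_eq_bot, LinearMap.ker_eq_bot']
  intro m hm
  have key : ∀ x y, dt n x * dt m y + dt m x * dt n y = 0 := by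
    intro x y
    rw [← pr_sy_ten]
    have : sy n m = 0 := hm
    rw [this]
    simp [pr]
  obtain ⟨t, ht⟩ := Function.ne_iff.1 hn
  have hdt : ∀ (m : Fin 3 → K) (t : Fin 3), dt m (Pi.single t 1) = m t := by
    intro m t
    simp [dt, Pi.single_apply]
  have h1 := key (Pi.single t 1) (Pi.single t 1)
  rw [hdt, hdt] at h1
  have ht' : n t ≠ 0 := ht
  have h2 : m t = 0 := by
    have : 2 * (n t * m t) = 0 := by linear_combination h1
    have := (mul_eq_zero.1 this).resolve_left two_ne_zero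
    exact (mul_eq_zero.1 this).resolve_left ht'
  funext i
  have h3 := key (Pi.single t 1) (Pi.single i 1)
  rw [hdt, hdt, hdt, hdt, h2, zero_mul, add_zero] at h3
  exact (mul_eq_zero.1 h3).resolve_left ht'

theorem ker_ge {n : Fin 3 → K} (hn0 : n ≠ 0) (hn : ∀ m, Φ (sy n m) = 0) :
    3 ≤ finrank K (LinearMap.ker Φ) := by
  have h1 : finrank K (LinearMap.range (mulN n)) = 3 := by
    rw [LinearMap.finrank_range_of_inj (mulN_inj hn0), Module.finrank_fin_fun]
  rw [← h1]
  apply Submodule.finrank_mono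
  rintro _ ⟨m, rfl⟩
  exact hn m

/-- In dimension three the squares of two lines which meet `n` in different points are independent. -/
theorem indep_line (hΦ : Function.Surjective Φ) (hd : finrank K Q = 3) {n : Fin 3 → K} (hn0 : n ≠ 0)
    (hn : ∀ m, Φ (sy n m) = 0) {i j : Fin q} (hij : d3 n (l i) (l j) ≠ 0) (α β : K)
    (h : α • E Φ l i + β • E Φ l j = 0) : α = 0 ∧ β = 0 := by
  have hker : finrank K (LinearMap.ker Φ) = 3 := by
    have h := LinearMap.finrank_range_add_finrank_ker Φ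
    rw [LinearMap.range_eq_top.2 hΦ, finrank_top, Module.finrank_fin_fun, hd] at h
    omega
  have h1 : finrank K (LinearMap.range (mulN n)) = 3 := by
    rw [LinearMap.finrank_range_of_inj (mulN_inj hn0), Module.finrank_fin_fun]
  have hle : LinearMap.range (mulN n) ≤ LinearMap.ker Φ := by
    rintro _ ⟨m, rfl⟩
    exact hn m
  have heq := Submodule.eq_of_le_of_finrank_eq hle (by rw [h1, hker])
  have h2 : α • sy (l i) (l i) + β • sy (l j) (l j) ∈ LinearMap.ker Φ := by
    rw [LinearMap.mem_ker, map_add, map_smul, map_smul]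
    exact h
  rw [← heq] at h2
  obtain ⟨m, hm⟩ := h2
  have key : ∀ x y, dt n x * dt m y + dt m x * dt n y = α * (2 * (dt (l i) x * dt (l i) y)) + β * (2 * (dt (l j) x * dt (l j) y)) := by
    intro x y
    have := congrArg (fun g => pr g (ten x y)) hm
    simp only [pr_add_left, pr_smul_left, pr_sq] at this
    rw [← this, ← pr_sy_ten]
    rfl
  have hji : d3 n (l j) (l i) ≠ 0 := by
    intro h0
    apply hij
    have : d3 n (l i) (l j) = - d3 n (l j) (l i) := by simp only [d3]; ring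
    rw [this, h0, neg_zero]
  constructor
  · have := key (cr n (l j)) (cr n (l j))
    simp only [dt_cr_left, dt_cr_right, mul_zero, zero_mul, add_zero] at this
    exact (mul_eq_zero.1 this.symm).resolve_right (mul_ne_zero two_ne_zero
      (mul_ne_zero (by rw [dt_cr]; exact hji) (by rw [dt_cr]; exact hji)))
  · have := key (cr n (l i)) (cr n (l i))
    simp only [dt_cr_left, dt_cr_right, mul_zero, zero_mul, zero_add, add_zero] at this
    exact (mul_eq_zero.1 this.symm).resolve_right (mul_ne_zero two_ne_zero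
      (mul_ne_zero (by rw [dt_cr]; exact hij) (by rw [dt_cr]; exact hij)))

theorem exists_only {a : Fin q → ℝ} (R : Finset (Fin q)) (hR : R.Nonempty)
    (h : ∀ i ∈ R, ∀ j ∈ R, i ≠ j → a i = 0 ∨ a j = 0) : ∃ i ∈ R, ∑ j ∈ R, a j = a i := by
  by_cases h0 : ∃ i ∈ R, a i ≠ 0
  · obtain ⟨i, hi, hai⟩ := h0
    refine ⟨i, hi, Finset.sum_eq_single_of_mem i hi fun j hj hji => ?_⟩
    exact (h i hi j hj (Ne.symm hji)).resolve_left hai
  · push Not at h0
    obtain ⟨i, hi⟩ := hR
    exact ⟨i, hi, by rw [Finset.sum_eq_zero h0, h0 i hi]⟩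

/-- The germ lies on a line. -/
theorem line_case (l : Fin q → Fin 3 → K) (hl : GP l) (Φ : (Fin 6 → K) →ₗ[K] Q) (hΦ : Function.Surjective Φ) (hq : 4 ≤ q)
    (hE : ∀ i, E Φ l i ≠ 0) (n : Fin 3 → K) (hn0 : n ≠ 0) (hn : ∀ m, Φ (sy n m) = 0)
    (hZ : ∀ t : Fin 6 → Fin q, Function.Injective t → ¬ (n ∈ Submodule.span K {l (t 0), l (t 1)} ∧
      n ∈ Submodule.span K {l (t 2), l (t 3)} ∧ n ∈ Submodule.span K {l (t 4), l (t 5)}))
    {ι : Type*} [DecidableEq ι] (P : Finset ι) (s : ι → Q → ℝ) (a b : ι → Fin q → ℝ)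
    (hp : ∀ v ∈ P, Plc Φ l (s v) (a v) (b v))
    (ha : ∀ v ∈ P, ∀ i j, d3 n (l i) (l j) ≠ 0 → a v i = 0 ∨ a v j = 0)
    (hb : ∀ v ∈ P, ∀ i j, d3 n (l i) (l j) ≠ 0 → b v i = 0 ∨ b v j = 0)
    (sch : ∀ (n : ι → ℕ) (w : ∀ v, Fin (n v) → Q), (∀ v ∈ P, LinearIndependent K (w v)) →
      ∑ v ∈ P, ∑ i, s v (w v i) ≤ finrank K Q)
    (res : ∀ e : Q, e ≠ 0 → ∑ v ∈ P, s v e ≤ 1) : ∑ v ∈ P, Tot Φ l (s v) ≤ 6 := by
  classical
  have hsum : ∀ (r : ι → ℝ), (∀ v ∈ P, Ind K (s v) (r v)) → ∑ v ∈ P, r v ≤ finrank K Q := by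
    intro r h
    have h1 : ∀ v, ∃ n, ∃ w : Fin n → Q, v ∈ P → LinearIndependent K w ∧ r v ≤ ∑ i, s v (w i) := by
      intro v
      by_cases hv : v ∈ P
      · obtain ⟨n, w, hw⟩ := h v hv
        exact ⟨n, w, fun _ => hw⟩
      · exact ⟨0, Fin.elim0, fun h => absurd h hv⟩
    choose n w hw using h1
    exact le_trans (Finset.sum_le_sum fun v hv => (hw v hv).2) (sch n w fun v hv => (hw v hv).1)
  have hd3 : finrank K Q ≤ 3 := by
    have h := LinearMap.finrank_range_add_finrank_ker Φ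
    rw [LinearMap.range_eq_top.2 hΦ, finrank_top, Module.finrank_fin_fun] at h
    have := ker_ge hn0 hn
    omega
  -- `n` and `l i` are independent
  have hcr : ∀ i, cr n (l i) ≠ 0 := by
    intro i h0
    obtain ⟨t, ht⟩ := Function.ne_iff.1 hn0
    have ht' : n t ≠ 0 := ht
    have h1 : ∀ s', n t * l i s' = l i t * n s' := by
      have e0 := congrFun h0 0
      have e1 := congrFun h0 1
      have e2 := congrFun h0 2
      simp only [cr, Matrix.cons_val_zero, Matrix.cons_val_one, Matrix.cons_val, Pi.zero_apply] at e0 e1 e2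
      intro s'
      fin_cases t <;> fin_cases s' <;> simp only [Fin.zero_eta, Fin.mk_one, Fin.reduceFinMk] <;>
        first
          | ring1
          | linear_combination e0
          | linear_combination e1
          | linear_combination e2
          | linear_combination -e0
          | linear_combination -e1
          | linear_combination -e2
    have h2 : l i = (l i t / n t) • n := by
      funext s'
      rw [Pi.smul_apply, smul_eq_mul, div_mul_eq_mul_div, ← h1 s', mul_comm (n t), mul_div_assoc, div_self ht', mul_one]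
    apply hE i
    have h3 : sy (l i) (l i) = (l i t / n t) • sy n (l i) := by
      conv_lhs => rw [h2]
      rw [sy_smul, ← h2]
    rw [E, h3, map_smul, hn, smul_zero]
  -- classes have at most two elements
  have hcl : ∀ i j m : Fin q, i ≠ j → i ≠ m → j ≠ m → d3 n (l i) (l j) = 0 → d3 n (l i) (l m) = 0 → False := by
    intro i j m h1 h2 h3 h4 h5
    refine hl i j m h1 h2 h3 ?_
    exact d3_eq_zero_of_span (u := n) (v := l i) (Submodule.subset_span (by simp))
      (mem_span_of_cr (hcr i) h4) (mem_span_of_cr (hcr i) h5)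
  have hsymm : ∀ i j : Fin q, d3 n (l i) (l j) = 0 → d3 n (l j) (l i) = 0 := by
    intro i j h
    have : d3 n (l j) (l i) = - d3 n (l i) (l j) := by simp only [d3]; ring
    rw [this, h, neg_zero]
  -- the larger elements of the pairs
  set D : Finset (Fin q) := Finset.univ.filter fun j => ∃ i, i < j ∧ d3 n (l i) (l j) = 0 with hD
  have hDc : D.card ≤ 2 := by
    by_contra hcon
    push Not at hcon
    obtain ⟨j1, h1, j2, h2, j3, h3, h12, h13, h23⟩ := Finset.two_lt_card.1 hcon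
    rw [hD, Finset.mem_filter] at h1 h2 h3
    obtain ⟨-, i1, hi1, e1⟩ := h1
    obtain ⟨-, i2, hi2, e2⟩ := h2
    obtain ⟨-, i3, hi3, e3⟩ := h3
    have nn : ∀ i j i' j' : Fin q, j ≠ j' → i < j → i' < j' → d3 n (l i) (l j) = 0 → d3 n (l i') (l j') = 0 →
        i ≠ i' ∧ i ≠ j' ∧ j ≠ i' := by
      intro i j i' j' hj hij hij' h h'
      refine ⟨?_, ?_, ?_⟩
      · rintro rfl
        exact hcl i j j' hij.ne hij'.ne hj h h'
      · rintro rfl
        exact hcl i j i' hij.ne hij'.ne' (hij'.trans hij).ne' h (hsymm _ _ h')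
      · rintro rfl
        exact hcl j i j' hij.ne' hij'.ne (hij.trans hij').ne (hsymm _ _ h) h'
    obtain ⟨a1, a2, a3⟩ := nn i1 j1 i2 j2 h12 hi1 hi2 e1 e2
    obtain ⟨b1, b2, b3⟩ := nn i1 j1 i3 j3 h13 hi1 hi3 e1 e3
    obtain ⟨c1, c2, c3⟩ := nn i2 j2 i3 j3 h23 hi2 hi3 e2 e3
    have hsp : ∀ i j : Fin q, i < j → d3 n (l i) (l j) = 0 → n ∈ Submodule.span K {l i, l j} := by
      intro i j hij h
      obtain ⟨m, hm1, hm2⟩ := exists_third hq i j
      exact mem_span_of_d3 (hl i j m hij.ne hm1 hm2) h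
    refine hZ ![i1, j1, i2, j2, i3, j3] ?_ ⟨hsp _ _ hi1 e1, hsp _ _ hi2 e2, hsp _ _ hi3 e3⟩
    have f1 := hi1.ne
    have f2 := hi2.ne
    have f3 := hi3.ne
    intro x y hxy
    fin_cases x <;> fin_cases y <;> simp at hxy ⊢ <;> first | exact absurd hxy ‹_› | exact absurd hxy.symm ‹_›
  set R : Finset (Fin q) := Finset.univ.filter fun j => ¬ ∃ i, i < j ∧ d3 n (l i) (l j) = 0 with hR
  have hRR : ∀ i ∈ R, ∀ j ∈ R, i ≠ j → d3 n (l i) (l j) ≠ 0 := by
    intro i hi j hj hij h
    rw [hR, Finset.mem_filter] at hi hj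
    rcases lt_or_gt_of_ne hij with h' | h'
    · exact hj.2 ⟨i, h', h⟩
    · exact hi.2 ⟨j, h', hsymm _ _ h⟩
  have hT : ∀ v, Tot Φ l (s v) = ∑ j ∈ D, s v (E Φ l j) + ∑ j ∈ R, s v (E Φ l j) := by
    intro v
    rw [Tot, hD, hR, Finset.sum_filter_add_sum_filter_not]
  have hDs : ∑ v ∈ P, ∑ j ∈ D, s v (E Φ l j) ≤ 2 := by
    rw [Finset.sum_comm]
    refine (Finset.sum_le_sum fun j _ => res _ (hE j)).trans ?_
    rw [Finset.sum_const, nsmul_eq_mul, mul_one]
    exact_mod_cast hDc
  have hloc : ∀ v ∈ P, R.Nonempty → ∃ i ∈ R, ∃ i' ∈ R, ∑ j ∈ R, s v (E Φ l j) = a v i + b v i' := by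
    intro v hv hne
    obtain ⟨i, hi, h1⟩ := exists_only R hne (fun i hi j hj hij => ha v hv i j (hRR i hi j hj hij))
    obtain ⟨i', hi', h2⟩ := exists_only R hne (fun i hi j hj hij => hb v hv i j (hRR i hi j hj hij))
    refine ⟨i, hi, i', hi', ?_⟩
    rw [← h1, ← h2, ← Finset.sum_add_distrib]
    exact Finset.sum_congr rfl fun j _ => (hp v hv).sq j
  have hRs : ∑ v ∈ P, ∑ j ∈ R, s v (E Φ l j) ≤ 4 := by
    rcases Finset.eq_empty_or_nonempty R with hRe | hne
    · simp only [hRe, Finset.sum_empty, Finset.sum_const_zero]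
      norm_num
    rcases Nat.lt_or_ge (finrank K Q) 3 with hd | hd
    · have h1 : ∑ v ∈ P, (∑ j ∈ R, s v (E Φ l j)) / 2 ≤ finrank K Q := by
        refine hsum _ fun v hv => ?_
        obtain ⟨i, hi, i', hi', h⟩ := hloc v hv hne
        have e1 := (hp v hv).sq i
        have e2 := (hp v hv).sq i'
        have p1 := (hp v hv).b0 i
        have p2 := (hp v hv).a0 i'
        rw [h]
        rcases le_total (s v (E Φ l i)) (s v (E Φ l i')) with h' | h'
        · exact ind1 (hE i') (by linarith)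
        · exact ind1 (hE i) (by linarith)
      rw [← Finset.sum_div] at h1
      have h2 : (finrank K Q : ℝ) ≤ 2 := by exact_mod_cast (by omega : finrank K Q ≤ 2)
      linarith
    · have hd' : finrank K Q = 3 := le_antisymm hd3 hd
      have h1 : ∑ v ∈ P, (∑ j ∈ R, s v (E Φ l j)) ≤ finrank K Q := by
        refine hsum _ fun v hv => ?_
        obtain ⟨i, hi, i', hi', h⟩ := hloc v hv hne
        have e1 := (hp v hv).sq i
        have e2 := (hp v hv).sq i'
        have p1 := (hp v hv).b0 i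
        have p2 := (hp v hv).a0 i'
        rw [h]
        by_cases hii : i = i'
        · subst hii
          exact ind1 (hE i) (by linarith)
        · exact ind2 (indep_line hΦ hd' hn0 hn (hRR i hi i' hi' hii)) (by linarith)
      rw [hd'] at h1
      push_cast at h1
      linarith
  have h1 : ∑ v ∈ P, Tot Φ l (s v) = ∑ v ∈ P, ∑ j ∈ D, s v (E Φ l j) + ∑ v ∈ P, ∑ j ∈ R, s v (E Φ l j) := by
    rw [← Finset.sum_add_distrib]
    exact Finset.sum_congr rfl fun v _ => hT v
  rw [h1]
  linarith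

end Pool.Agent.QP
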