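import Pool.Agent.Helper16.QP.Geo
import Pool.Agent.Helper17.QP.A

/-!
# QP, block P1: improper pairs
-/

set_option autoImplicit false

namespace Pool.Agent.QP

open Module

variable {K : Type*} [Field K] [CharZero K]

omit [CharZero K] in
theorem pr_sub_right (g f f' : Fin 6 → K) : pr g (f - f') = pr g f - pr g f' := by
  simp [pr, mul_sub, Finset.sum_sub_distrib]

theorem aux_b0 {u v w : Fin 3 → K} (h3 : d3 u v w ≠ 0) (Λ : Submodule K (Fin 6 → K)) (f0 f1 : Fin 6 → K) (hf0 : f0 ∈ Λ)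
    (hf1 : f1 ∈ Λ) (hu0 : pr (sy u u) f0 = 0) (hu1 : pr (sy u u) f1 = 0) (hv0 : pr (sy v v) f0 = 0)
    (hv1 : pr (sy v v) f1 = 0) (a0 : pr (sy u v) f0 = 0) (a1 : pr (sy u v) f1 ≠ 0) (b0 : pr (sy u w) f0 = 0) (h0 : f0 ≠ 0)
    (hd0 : pr (sy u v) f1 * pr (sy w w) f0 = 2 * (pr (sy u w) f1 * pr (sy v w) f0))
    (hd1 : pr (sy u v) f1 * pr (sy w w) f1 = 2 * (pr (sy u w) f1 * pr (sy v w) f1)) :
    ∃ x : Fin 3 → K, x ≠ 0 ∧ ∀ y, dt v y = 0 → ten x y ∈ Λ := by
  have c0 : pr (sy v w) f0 ≠ 0 := by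
    intro h
    apply h0
    refine eq_zero_of_gram h3 f0 hu0 hv0 ?_ a0 b0 h
    rw [h, mul_zero, mul_zero] at hd0
    rcases mul_eq_zero.1 hd0 with h' | h'
    · exact absurd h' a1
    · exact h'
  obtain ⟨x, hx1, hx2, hx3⟩ := exists_pt h3 0 1 (pr (sy u w) f1 / pr (sy u v) f1)
  refine ⟨x, ?_, fun y hy => ?_⟩
  · rintro rfl
    simp [dt] at hx2
  · set t : K := dt u y / pr (sy u v) f1 with ht
    set s : K := (dt w y - t * pr (sy v w) f1) / pr (sy v w) f0 with hs
    have e1 : t * pr (sy u v) f1 = dt u y := by rw [ht]; field_simp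
    have e2 : s * pr (sy v w) f0 + t * pr (sy v w) f1 = dt w y := by rw [hs]; field_simp; ring
    have key : s • f0 + t • f1 - ten x y = 0 := by
      refine eq_zero_of_gram h3 _ ?_ ?_ ?_ ?_ ?_ ?_
      · rw [pr_sub_right, pr_add_right, pr_smul_right, pr_smul_right, hu0, hu1, pr_sy_ten, hx1]; ring
      · rw [pr_sub_right, pr_add_right, pr_smul_right, pr_smul_right, hv0, hv1, pr_sy_ten, hy]; ring
      · rw [pr_sub_right, pr_add_right, pr_smul_right, pr_smul_right, pr_sy_ten, hx3, ← e2]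
        field_simp
        linear_combination s * hd0 + t * hd1
      · rw [pr_sub_right, pr_add_right, pr_smul_right, pr_smul_right, pr_sy_ten, hx1, hx2, hy, a0, e1]; ring
      · rw [pr_sub_right, pr_add_right, pr_smul_right, pr_smul_right, pr_sy_ten, hx1, hx3, b0, ← e1]
        field_simp
        ring
      · rw [pr_sub_right, pr_add_right, pr_smul_right, pr_smul_right, pr_sy_ten, hx2, hy, e2]; ring
    rw [← sub_eq_zero.1 key]
    exact Λ.add_mem (Λ.smul_mem _ hf0) (Λ.smul_mem _ hf1)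

omit [CharZero K] in
theorem d3_swap (u v w : Fin 3 → K) : d3 v u w = - d3 u v w := by
  simp only [d3]; ring

variable {Q : Type*} [AddCommGroup Q] [Module K Q] (Φ : (Fin 6 → K) →ₗ[K] Q)

/-- The alternatives for an improper pair. -/
theorem improper (hΦ : Function.Surjective Φ) (hd : finrank K Q = 4) (u v w : Fin 3 → K) (h3 : d3 u v w ≠ 0)
    (hind : LinearIndependent K ![Φ (sy u u), Φ (sy v v)])
    (hno : ∀ f : Fin 6 → K, (∀ g, Φ g = 0 → pr g f = 0) → pr (sy u u) f = 0 → pr (sy v v) f = 0 → det6 f = 0) :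
    Φ (sy u v) ∈ Submodule.span K {Φ (sy u u), Φ (sy v v)} ∨
    (∃ x : Fin 3 → K, x ≠ 0 ∧ ∀ y, dt v y = 0 → ∀ g, Φ g = 0 → pr g (ten x y) = 0) ∨
    (∃ x : Fin 3 → K, x ≠ 0 ∧ ∀ y, dt u y = 0 → ∀ g, Φ g = 0 → pr g (ten x y) = 0) := by
  have hker : finrank K (LinearMap.ker Φ) = 2 := by
    have h := LinearMap.finrank_range_add_finrank_ker Φ
    rw [LinearMap.range_eq_top.2 hΦ, finrank_top, Module.finrank_fin_fun, hd] at h
    omega
  set S : Submodule K (Fin 6 → K) := Submodule.span K {sy u u, sy v v} with hSdef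
  have hli : LinearIndependent K ![sy u u, sy v v] := by
    apply LinearIndependent.of_comp Φ
    convert hind using 1
    funext a
    fin_cases a <;> rfl
  have hS : finrank K S = 2 := by
    have := finrank_span_eq_card hli
    rw [Matrix.range_cons_cons_empty] at this
    rw [hSdef, this]
    simp
  have hinf : LinearMap.ker Φ ⊓ S = ⊥ := by
    rw [eq_bot_iff]
    rintro g ⟨hg1, hg2⟩
    obtain ⟨α, β, rfl⟩ := Submodule.mem_span_pair.1 hg2
    have h1 : Φ (α • sy u u + β • sy v v) = 0 := hg1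
    rw [map_add, map_smul, map_smul] at h1
    obtain ⟨h2, h3⟩ := LinearIndependent.pair_iff.1 hind α β h1
    rw [h2, h3, zero_smul, zero_smul, add_zero]
    exact Submodule.zero_mem _
  set W : Submodule K (Fin 6 → K) := LinearMap.ker Φ ⊔ S with hWdef
  have hW : finrank K W = 4 := by
    have := Submodule.finrank_sup_add_finrank_inf_eq (LinearMap.ker Φ) S
    rw [hinf, finrank_bot, hker, hS] at this
    omega
  set Λ : Submodule K (Fin 6 → K) := LinearMap.BilinForm.orthogonal PB W with hΛdef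
  have hΛ : finrank K Λ = 2 := by
    have := LinearMap.BilinForm.finrank_orthogonal PB_nondeg W
    rw [hΛdef, this, hW, Module.finrank_fin_fun]
  have hmem : ∀ f : Fin 6 → K, f ∈ Λ ↔ ∀ g ∈ W, pr g f = 0 := by
    intro f
    rw [hΛdef, LinearMap.BilinForm.mem_orthogonal_iff]
    rfl
  have hΛk : ∀ f ∈ Λ, ∀ g, Φ g = 0 → pr g f = 0 := fun f hf g hg =>
    (hmem f).1 hf g (Submodule.mem_sup_left hg)
  have hΛu : ∀ f ∈ Λ, pr (sy u u) f = 0 := fun f hf =>
    (hmem f).1 hf _ (Submodule.mem_sup_right (Submodule.subset_span (by simp)))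
  have hΛv : ∀ f ∈ Λ, pr (sy v v) f = 0 := fun f hf =>
    (hmem f).1 hf _ (Submodule.mem_sup_right (Submodule.subset_span (by simp)))
  have hdet : ∀ f ∈ Λ, pr (sy u v) f * (2 * (pr (sy u w) f * pr (sy v w) f) - pr (sy u v) f * pr (sy w w) f) = 0 := by
    intro f hf
    have h1 := gram f u v w
    rw [hno f (hΛk f hf) (hΛu f hf) (hΛv f hf), hΛu f hf, hΛv f hf] at h1
    linear_combination -h1
  by_cases hA : ∀ f ∈ Λ, pr (sy u v) f = 0
  · left
    have h1 : sy u v ∈ LinearMap.BilinForm.orthogonal PB Λ := by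
      rw [LinearMap.BilinForm.mem_orthogonal_iff]
      intro f hf
      change pr f (sy u v) = 0
      rw [pr_comm]
      exact hA f hf
    rw [hΛdef, LinearMap.BilinForm.orthogonal_orthogonal PB_nondeg PB_refl] at h1
    obtain ⟨g, hg, h, hh, hgh⟩ := Submodule.mem_sup.1 h1
    obtain ⟨α, β, rfl⟩ := Submodule.mem_span_pair.1 hh
    rw [← hgh, map_add, (LinearMap.mem_ker.1 hg), zero_add, map_add, map_smul, map_smul]
    exact Submodule.mem_span_pair.2 ⟨α, β, rfl⟩
  · right
    push Not at hA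
    obtain ⟨f1, hf1, ha1⟩ := hA
    -- the kernel of `a` on `Λ`
    set a : Λ →ₗ[K] K := (PB (sy u v)).comp Λ.subtype with hadef
    have haf : ∀ f : Λ, a f = pr (sy u v) f := fun f => rfl
    have hr : finrank K (LinearMap.range a) = 1 := by
      have hs : Function.Surjective a := by
        apply LinearMap.surjective
        intro h
        apply ha1
        have := LinearMap.congr_fun h ⟨f1, hf1⟩
        exact this
      rw [LinearMap.range_eq_top.2 hs, finrank_top, Module.finrank_self]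
    have hk : finrank K (LinearMap.ker a) = 1 := by
      have := LinearMap.finrank_range_add_finrank_ker a
      rw [hr, hΛ] at this
      omega
    obtain ⟨⟨⟨f0, hf0⟩, hf0'⟩, hne⟩ : ∃ x : LinearMap.ker a, x ≠ 0 := by
      have : Nontrivial (LinearMap.ker a) := Module.nontrivial_of_finrank_pos (by omega : 0 < finrank K (LinearMap.ker a))
      exact exists_ne 0
    have h0 : f0 ≠ 0 := by
      rintro rfl
      exact hne rfl
    have a0 : pr (sy u v) f0 = 0 := hf0'
    have key : ∀ t : K, 2 * ((pr (sy u w) f1 + t * pr (sy u w) f0) * (pr (sy v w) f1 + t * pr (sy v w) f0)) =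
        pr (sy u v) f1 * (pr (sy w w) f1 + t * pr (sy w w) f0) := by
      intro t
      have h1 := hdet (f1 + t • f0) (Λ.add_mem hf1 (Λ.smul_mem _ hf0))
      simp only [pr_add_right, pr_smul_right, a0, mul_zero, add_zero] at h1
      rcases mul_eq_zero.1 h1 with h2 | h2
      · exact absurd h2 ha1
      · exact sub_eq_zero.1 h2
    have k0 := key 0
    have k1 := key 1
    have k2 := key (-1)
    have hbc : pr (sy u w) f0 * pr (sy v w) f0 = 0 := by
      have : (4 : K) * (pr (sy u w) f0 * pr (sy v w) f0) = 0 := by linear_combination k1 + k2 - 2 * k0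
      simpa using this
    have hd0' : pr (sy u v) f1 * pr (sy w w) f0 =
        2 * (pr (sy u w) f1 * pr (sy v w) f0 + pr (sy u w) f0 * pr (sy v w) f1) := by
      have : (2 : K) * (pr (sy u v) f1 * pr (sy w w) f0 -
        2 * (pr (sy u w) f1 * pr (sy v w) f0 + pr (sy u w) f0 * pr (sy v w) f1)) = 0 := by linear_combination k2 - k1
      have := (mul_eq_zero.1 this).resolve_left two_ne_zero
      exact sub_eq_zero.1 this
    have hd1 : pr (sy u v) f1 * pr (sy w w) f1 = 2 * (pr (sy u w) f1 * pr (sy v w) f1) := by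
      linear_combination -k0
    rcases mul_eq_zero.1 hbc with hb | hc
    · left
      rw [hb, zero_mul, add_zero] at hd0'
      obtain ⟨x, hx, hx'⟩ := aux_b0 h3 Λ f0 f1 hf0 hf1 (hΛu _ hf0) (hΛu _ hf1) (hΛv _ hf0) (hΛv _ hf1) a0 ha1 hb h0 hd0' hd1
      exact ⟨x, hx, fun y hy => hΛk _ (hx' y hy)⟩
    · right
      rw [hc, mul_zero, zero_add] at hd0'
      have h3' : d3 v u w ≠ 0 := by rw [d3_swap]; exact neg_ne_zero.2 h3
      obtain ⟨x, hx, hx'⟩ := aux_b0 h3' Λ f0 f1 hf0 hf1 (hΛv _ hf0) (hΛv _ hf1) (hΛu _ hf0) (hΛu _ hf1)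
        (by rw [sy_comm]; exact a0) (by rw [sy_comm]; exact ha1) hc h0
        (by rw [sy_comm v u, hd0']; ring) (by rw [sy_comm v u, hd1]; ring)
      exact ⟨x, hx, fun y hy => hΛk _ (hx' y hy)⟩

end Pool.Agent.QP
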