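import Pool.Agent.Helper16.QP.P1

/-!
# QP, blocks P2, P3: two classes of proportional squares; the local inequality `loc4c`
-/

set_option autoImplicit false

namespace Pool.Agent.QP

open Module

section basic

variable {K : Type*} [Field K]

theorem eq_zero_of_dt {u v w : Fin 3 → K} (h : d3 u v w ≠ 0) {x : Fin 3 → K} (h1 : dt u x = 0) (h2 : dt v x = 0)
    (h3 : dt w x = 0) : x = 0 := by
  have e : ∀ u x : Fin 3 → K, dt u x = u 0 * x 0 + u 1 * x 1 + u 2 * x 2 := fun u x => by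
    simp [dt, Fin.sum_univ_three]
  rw [e] at h1 h2 h3
  have key : ∀ t, d3 u v w * x t = 0 := by
    intro t
    fin_cases t
    · simp only [d3, Fin.zero_eta]
      linear_combination (v 1 * w 2 - v 2 * w 1) * h1 + (w 1 * u 2 - w 2 * u 1) * h2 + (u 1 * v 2 - u 2 * v 1) * h3
    · simp only [d3, Fin.mk_one]
      linear_combination (v 2 * w 0 - v 0 * w 2) * h1 + (w 2 * u 0 - w 0 * u 2) * h2 + (u 2 * v 0 - u 0 * v 2) * h3
    · simp only [d3, Fin.reduceFinMk]
      linear_combination (v 0 * w 1 - v 1 * w 0) * h1 + (w 0 * u 1 - w 1 * u 0) * h2 + (u 0 * v 1 - u 1 * v 0) * h3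
  funext t
  exact (mul_eq_zero.1 (key t)).resolve_left h

theorem pr_sq (l x y : Fin 3 → K) : pr (sy l l) (ten x y) = 2 * (dt l x * dt l y) := by
  rw [pr_sy_ten]; ring

theorem pr_sub_left (g g' f : Fin 6 → K) : pr (g - g') f = pr g f - pr g' f := by
  simp [pr, sub_mul, Finset.sum_sub_distrib]

end basic

section rel

variable {K : Type*} [Field K] {q : ℕ} (l : Fin q → Fin 3 → K)
variable {Q : Type*} [AddCommGroup Q] [Module K Q] (Φ : (Fin 6 → K) →ₗ[K] Q)

theorem rel_symm {i j : Fin q} (hi : E Φ l i ≠ 0) (h : Rel Φ l i j) : Rel Φ l j i := by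
  obtain ⟨c, hc⟩ := h
  have hc0 : c ≠ 0 := by
    rintro rfl
    rw [zero_smul] at hc
    exact hi hc
  exact ⟨c⁻¹, by rw [hc, smul_smul, inv_mul_cancel₀ hc0, one_smul]⟩

theorem rel_trans {i j k : Fin q} (h : Rel Φ l i j) (h' : Rel Φ l j k) : Rel Φ l i k := by
  obtain ⟨c, hc⟩ := h
  obtain ⟨c', hc'⟩ := h'
  exact ⟨c * c', by rw [hc, hc', smul_smul]⟩

end rel


variable {K : Type*} [Field K] [CharZero K] {q : ℕ} {l : Fin q → Fin 3 → K}
variable {Q : Type*} [AddCommGroup Q] [Module K Q] {Φ : (Fin 6 → K) →ₗ[K] Q}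

/-- the form of the relation of a pair -/
def gr (l : Fin q → Fin 3 → K) (i j : Fin q) (c : K) : Fin 6 → K := sy (l i) (l i) - c • sy (l j) (l j)

omit [CharZero K] in
theorem pr_gr (i j : Fin q) (c : K) (x y : Fin 3 → K) :
    pr (gr l i j c) (ten x y) = 2 * (dt (l i) x * dt (l i) y) - c * (2 * (dt (l j) x * dt (l j) y)) := by
  rw [gr, pr_sub_left, pr_smul_left, pr_sq, pr_sq]

omit [CharZero K] in
theorem rel_gr {i j : Fin q} (hE : E Φ l i ≠ 0) (h : Rel Φ l i j) : ∃ c : K, c ≠ 0 ∧ Φ (gr l i j c) = 0 := by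
  obtain ⟨c, hc⟩ := h
  refine ⟨c, ?_, ?_⟩
  · rintro rfl
    rw [zero_smul] at hc
    exact hE hc
  · rw [gr, map_sub, map_smul]
    exact sub_eq_zero.2 hc

/-- in case (beta) the point lies on the lines of the pair -/
theorem beta_aux (hl : GP l) {k k' m j : Fin q} (h1 : k ≠ k') (h2 : m ≠ k) (h3 : m ≠ k') {c : K}
    {x : Fin 3 → K} (h : ∀ y, dt (l j) y = 0 → pr (gr l k k' c) (ten x y) = 0) (hj : j ≠ k) :
    dt (l k) x = 0 := by
  have main : ∀ y, dt (l j) y = 0 → dt (l k') y = 0 → dt (l k) y ≠ 0 → dt (l k) x = 0 := by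
    intro y hy1 hy2 hy3
    have h4 := h y hy1
    rw [pr_gr, hy2, mul_zero, mul_zero, mul_zero, sub_zero] at h4
    have := (mul_eq_zero.1 h4).resolve_left two_ne_zero
    exact (mul_eq_zero.1 this).resolve_right hy3
  by_cases hjk : j = k'
  · subst hjk
    exact main (cr (l j) (l m)) (dt_cr_left _ _) (dt_cr_left _ _) (hl.ne (Ne.symm h3) hj h2)
  · exact main (cr (l j) (l k')) (dt_cr_left _ _) (dt_cr_right _ _) (hl.ne hjk hj (Ne.symm h1))

/-- in case (beta) the point lies on the lines of the pair: the second line -/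
theorem beta_aux' (hl : GP l) {k k' m j : Fin q} (h1 : k ≠ k') (h2 : m ≠ k) (h3 : m ≠ k') {c : K} (hc : c ≠ 0)
    {x : Fin 3 → K} (h : ∀ y, dt (l j) y = 0 → pr (gr l k k' c) (ten x y) = 0) (hj : j ≠ k') :
    dt (l k') x = 0 := by
  have main : ∀ y, dt (l j) y = 0 → dt (l k) y = 0 → dt (l k') y ≠ 0 → dt (l k') x = 0 := by
    intro y hy1 hy2 hy3
    have h4 := h y hy1
    rw [pr_gr, hy2, mul_zero, mul_zero, zero_sub, neg_eq_zero] at h4
    have := (mul_eq_zero.1 ((mul_eq_zero.1 h4).resolve_left hc)).resolve_left two_ne_zero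
    exact (mul_eq_zero.1 this).resolve_right hy3
  by_cases hjk : j = k
  · subst hjk
    exact main (cr (l j) (l m)) (dt_cr_left _ _) (dt_cr_left _ _) (hl.ne (Ne.symm h2) hj h3)
  · exact main (cr (l j) (l k)) (dt_cr_left _ _) (dt_cr_right _ _) (hl.ne hjk hj h1)

/-- (beta) is impossible -/
theorem no_beta (hl : GP l) {k k' m m' j : Fin q} (h1 : k ≠ k') (h2 : m ≠ m') (h3 : k ≠ m) (h4 : k ≠ m') (h5 : k' ≠ m)
    (h6 : k' ≠ m') {c c' : K} (hc : c ≠ 0) (hc' : c' ≠ 0) (hk : Φ (gr l k k' c) = 0) (hm : Φ (gr l m m' c') = 0)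
    {x : Fin 3 → K} (hx : x ≠ 0) (h : ∀ y, dt (l j) y = 0 → ∀ g, Φ g = 0 → pr g (ten x y) = 0) : False := by
  have hk1 : j ≠ k → dt (l k) x = 0 := beta_aux hl (m := m) h1 (Ne.symm h3) (Ne.symm h5) (fun y hy => h y hy _ hk)
  have hk2 : j ≠ k' → dt (l k') x = 0 :=
    beta_aux' hl (m := m) h1 (Ne.symm h3) (Ne.symm h5) hc (fun y hy => h y hy _ hk)
  have hm1 : j ≠ m → dt (l m) x = 0 := beta_aux hl (m := k) h2 h3 h4 (fun y hy => h y hy _ hm)
  have hm2 : j ≠ m' → dt (l m') x = 0 := beta_aux' hl (m := k) h2 h3 h4 hc' (fun y hy => h y hy _ hm)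
  apply hx
  by_cases e1 : j = k
  · exact eq_zero_of_dt (hl k' m m' h5 h6 h2) (hk2 (e1 ▸ h1)) (hm1 (e1 ▸ h3)) (hm2 (e1 ▸ h4))
  by_cases e2 : j = k'
  · exact eq_zero_of_dt (hl k m m' h3 h4 h2) (hk1 e1) (hm1 (e2 ▸ h5)) (hm2 (e2 ▸ h6))
  by_cases e3 : j = m
  · exact eq_zero_of_dt (hl k k' m' h1 h4 h6) (hk1 e1) (hk2 e2) (hm2 (e3 ▸ h2))
  · exact eq_zero_of_dt (hl k k' m h1 h3 h5) (hk1 e1) (hk2 e2) (hm1 e3)

/-- the kernel is spanned by the two relations -/
theorem ker_two (hl : GP l) (hΦ : Function.Surjective Φ) (hd : finrank K Q = 4) {k k' m m' : Fin q} (h1 : k ≠ k')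
    (h2 : m ≠ m') (h3 : k ≠ m) (h4 : k ≠ m') (h5 : k' ≠ m)
    (h6 : k' ≠ m') {c c' : K} (hk : Φ (gr l k k' c) = 0) (hm : Φ (gr l m m' c') = 0)
    {g : Fin 6 → K} (hg : Φ g = 0) : ∃ z w : K, g = z • gr l k k' c + w • gr l m m' c' := by
  have hker : finrank K (LinearMap.ker Φ) = 2 := by
    have h := LinearMap.finrank_range_add_finrank_ker Φ
    rw [LinearMap.range_eq_top.2 hΦ, finrank_top, Module.finrank_fin_fun, hd] at h
    omega
  have hli : LinearIndependent K ![gr l k k' c, gr l m m' c'] := by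
    rw [LinearIndependent.pair_iff]
    intro z w h
    have key : ∀ x y, z * pr (gr l k k' c) (ten x y) + w * pr (gr l m m' c') (ten x y) = 0 := by
      intro x y
      have := congrArg (fun g => pr g (ten x y)) h
      simp only [pr_add_left, pr_smul_left] at this
      rw [this]
      simp [pr]
    constructor
    · have := key (cr (l k') (l m)) (cr (l k') (l m'))
      rw [pr_gr, pr_gr] at this
      simp only [dt_cr_left, dt_cr_right, mul_zero, zero_mul, sub_zero, add_zero] at this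
      exact (mul_eq_zero.1 this).resolve_right (mul_ne_zero two_ne_zero
        (mul_ne_zero (hl.ne h5 (Ne.symm h1) (Ne.symm h3)) (hl.ne h6 (Ne.symm h1) (Ne.symm h4))))
    · have := key (cr (l m') (l k)) (cr (l m') (l k'))
      rw [pr_gr, pr_gr] at this
      simp only [dt_cr_left, dt_cr_right, mul_zero, zero_mul, sub_zero, zero_add] at this
      exact (mul_eq_zero.1 this).resolve_right (mul_ne_zero two_ne_zero
        (mul_ne_zero (hl.ne (Ne.symm h4) (Ne.symm h2) h3) (hl.ne (Ne.symm h6) (Ne.symm h2) h5)))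
  have hS : finrank K (Submodule.span K {gr l k k' c, gr l m m' c'}) = 2 := by
    have := finrank_span_eq_card hli
    rw [Matrix.range_cons_cons_empty] at this
    rw [this]
    simp
  have hle : Submodule.span K {gr l k k' c, gr l m m' c'} ≤ LinearMap.ker Φ := by
    rw [Submodule.span_le]
    intro g hg
    simp only [Set.mem_insert_iff, Set.mem_singleton_iff] at hg
    rcases hg with rfl | rfl
    · exact hk
    · exact hm
  have heq := Submodule.eq_of_le_of_finrank_eq hle (by rw [hS, hker])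
  have : g ∈ Submodule.span K {gr l k k' c, gr l m m' c'} := by rw [heq]; exact hg
  obtain ⟨z, w, h⟩ := Submodule.mem_span_pair.1 this
  exact ⟨z, w, h.symm⟩

/-- (alpha) is impossible for a line in a class -/
theorem no_alpha (hl : GP l) (hΦ : Function.Surjective Φ) (hd : finrank K Q = 4) {k k' m m' j : Fin q} (h1 : k ≠ k')
    (h2 : m ≠ m') (h3 : k ≠ m) (h4 : k ≠ m') (h5 : k' ≠ m) (h6 : k' ≠ m') (h7 : j ≠ k) (h8 : j ≠ k')
    {c c' : K} (hc : c ≠ 0) (hc' : c' ≠ 0) (hk : Φ (gr l k k' c) = 0) (hm : Φ (gr l m m' c') = 0)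
    (h : Φ (sy (l k) (l j)) ∈ Submodule.span K {Φ (sy (l k) (l k)), Φ (sy (l j) (l j))}) : False := by
  obtain ⟨α, β, hab⟩ := Submodule.mem_span_pair.1 h
  have h9 : Φ (sy (l k) (l j) - (α • sy (l k) (l k) + β • sy (l j) (l j))) = 0 := by
    rw [map_sub, map_add, map_smul, map_smul, hab, sub_self]
  obtain ⟨z, w, hzw⟩ := ker_two hl hΦ hd h1 h2 h3 h4 h5 h6 hk hm h9
  have key : ∀ x y, (dt (l k) x * dt (l j) y + dt (l j) x * dt (l k) y) -
      (α * (2 * (dt (l k) x * dt (l k) y)) + β * (2 * (dt (l j) x * dt (l j) y))) =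
      z * (2 * (dt (l k) x * dt (l k) y) - c * (2 * (dt (l k') x * dt (l k') y))) +
      w * (2 * (dt (l m) x * dt (l m) y) - c' * (2 * (dt (l m') x * dt (l m') y))) := by
    intro x y
    have := congrArg (fun g => pr g (ten x y)) hzw
    simp only [pr_add_left, pr_smul_left, pr_sub_left, pr_gr, pr_sq, pr_sy_ten] at this
    exact this
  have hz : z = 0 := by
    have := key (cr (l k) (l j)) (cr (l m) (l m'))
    simp only [dt_cr_left, dt_cr_right, mul_zero, zero_mul, sub_zero, add_zero, zero_add, zero_sub] at this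
    have h10 : z * (c * (2 * (dt (l k') (cr (l k) (l j)) * dt (l k') (cr (l m) (l m'))))) = 0 := by
      linear_combination this
    exact (mul_eq_zero.1 h10).resolve_right (mul_ne_zero hc (mul_ne_zero two_ne_zero
      (mul_ne_zero (hl.ne (Ne.symm h7) h1 h8) (hl.ne h2 (Ne.symm h5) (Ne.symm h6)))))
  have hw : w = 0 := by
    by_cases hj : j = m
    · subst hj
      have := key (cr (l k) (l j)) (cr (l j) (l k'))
      simp only [hz, dt_cr_left, dt_cr_right, mul_zero, zero_mul, sub_zero, add_zero, zero_add, zero_sub] at this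
      have h10 : w * (c' * (2 * (dt (l m') (cr (l k) (l j)) * dt (l m') (cr (l j) (l k'))))) = 0 := by
        linear_combination this
      exact (mul_eq_zero.1 h10).resolve_right (mul_ne_zero hc' (mul_ne_zero two_ne_zero
        (mul_ne_zero (hl.ne (Ne.symm h7) h4 h2) (hl.ne (Ne.symm h5) h2 h6))))
    · have := key (cr (l k) (l j)) (cr (l m') (l k'))
      simp only [hz, dt_cr_left, dt_cr_right, mul_zero, zero_mul, sub_zero, add_zero, zero_add, zero_sub] at this
      exact (mul_eq_zero.1 this.symm).resolve_right (mul_ne_zero two_ne_zero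
        (mul_ne_zero (hl.ne (Ne.symm h7) h3 hj) (hl.ne (Ne.symm h6) (Ne.symm h2) h5)))
  have := key (cr (l k) (l k')) (cr (l j) (l k'))
  simp only [hz, hw, dt_cr_left, dt_cr_right, mul_zero, zero_mul, sub_zero, add_zero, zero_add, zero_sub] at this
  exact mul_ne_zero (hl.ne h1 (Ne.symm h7) (Ne.symm h8)) (hl.ne h8 h7 (Ne.symm h1)) this

/-- a class has two elements -/
theorem class_two (hl : GP l) (hΦ : Function.Surjective Φ) (hd : finrank K Q = 4) {k k' m m' j : Fin q} (h1 : k ≠ k')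
    (h2 : m ≠ m') (h3 : k ≠ m) (h4 : k ≠ m') (h5 : k' ≠ m) (h6 : k' ≠ m') (h7 : j ≠ k) (h8 : j ≠ k') (h9 : j ≠ m)
    (h10 : j ≠ m') {c c' c'' : K} (hc'' : c'' ≠ 0) (hk : Φ (gr l k k' c) = 0)
    (hm : Φ (gr l m m' c') = 0) (hj : Φ (gr l k j c'') = 0) : False := by
  obtain ⟨z, w, hzw⟩ := ker_two hl hΦ hd h1 h2 h3 h4 h5 h6 hk hm hj
  have := congrArg (fun g => pr g (ten (cr (l k) (l k')) (cr (l m) (l m')))) hzw
  simp only [pr_add_left, pr_smul_left, pr_gr] at this
  simp only [dt_cr_left, dt_cr_right, mul_zero, zero_mul, sub_zero, add_zero, zero_add, zero_sub, neg_eq_zero] at this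
  exact mul_ne_zero hc'' (mul_ne_zero two_ne_zero (mul_ne_zero (hl.ne h1 (Ne.symm h7) (Ne.symm h8))
    (hl.ne h2 (Ne.symm h9) (Ne.symm h10)))) this

omit [CharZero K] in
theorem prp_symm {i j : Fin q} (h : Prp Φ l i j) : Prp Φ l j i := by
  obtain ⟨f, h1, h2, h3, h4⟩ := h
  exact ⟨f, h1, h3, h2, h4⟩

/-- proper, or (alpha) -/
theorem prp_or (hl : GP l) (hΦ : Function.Surjective Φ) (hd : finrank K Q = 4) (hE : ∀ i, E Φ l i ≠ 0)
    {k k' m m' : Fin q} (h1 : k ≠ k')
    (h2 : m ≠ m') (h3 : k ≠ m) (h4 : k ≠ m') (h5 : k' ≠ m) (h6 : k' ≠ m')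
    {c c' : K} (hc : c ≠ 0) (hc' : c' ≠ 0) (hk : Φ (gr l k k' c) = 0) (hm : Φ (gr l m m' c') = 0)
    {x y : Fin q} (hxy : x ≠ y) (hn : ¬ Rel Φ l x y) :
    Prp Φ l x y ∨ B Φ l x y ∈ Submodule.span K {E Φ l x, E Φ l y} := by
  obtain ⟨t, ht1, ht2⟩ : ∃ t : Fin q, x ≠ t ∧ y ≠ t := by
    by_contra hcon
    push Not at hcon
    have e1 := hcon k
    have e2 := hcon k'
    have e3 := hcon m
    grind
  have hind : LinearIndependent K ![Φ (sy (l x) (l x)), Φ (sy (l y) (l y))] := by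
    rw [LinearIndependent.pair_iff]
    intro s r h
    have hs : s = 0 := by
      by_contra hs
      apply hn
      refine ⟨-(r / s), ?_⟩
      have h7 : s • E Φ l x = -(r • E Φ l y) := eq_neg_of_add_eq_zero_left h
      have : E Φ l x = s⁻¹ • (s • E Φ l x) := by rw [smul_smul, inv_mul_cancel₀ hs, one_smul]
      rw [this, h7, smul_neg, smul_smul, neg_smul, div_eq_inv_mul]
    subst hs
    rw [zero_smul, zero_add] at h
    exact ⟨rfl, (smul_eq_zero.1 h).resolve_right (hE y)⟩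
  by_cases hp : Prp Φ l x y
  · exact Or.inl hp
  · right
    have hno : ∀ f : Fin 6 → K, (∀ g, Φ g = 0 → pr g f = 0) → pr (sy (l x) (l x)) f = 0 →
        pr (sy (l y) (l y)) f = 0 → det6 f = 0 := by
      intro f hf1 hf2 hf3
      by_contra hf4
      exact hp ⟨f, hf1, hf2, hf3, hf4⟩
    rcases improper Φ hΦ hd (l x) (l y) (l t) (hl x y t hxy ht1 ht2) hind hno with h | ⟨z, hz, h⟩ | ⟨z, hz, h⟩
    · exact h
    · exact (no_beta hl h1 h2 h3 h4 h5 h6 hc hc' hk hm hz h).elim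
    · exact (no_beta hl h1 h2 h3 h4 h5 h6 hc hc' hk hm hz h).elim

/-- in a class: the pair with any line outside the class is proper -/
theorem prp_class (hl : GP l) (hΦ : Function.Surjective Φ) (hd : finrank K Q = 4) (hE : ∀ i, E Φ l i ≠ 0)
    {i j i' j' : Fin q} (hij : i ≠ j) (h1 : Rel Φ l i j) (hij' : i' ≠ j') (h2 : Rel Φ l i' j') (h3 : ¬ Rel Φ l i i')
    {x y z : Fin q} (hxy : x ≠ y) (hr : Rel Φ l x y) (hzx : z ≠ x) (hzy : z ≠ y) : ¬ Rel Φ l x z ∧ Prp Φ l x z := by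
  obtain ⟨m, m', hmm, hrm, hxm⟩ : ∃ m m', m ≠ m' ∧ Rel Φ l m m' ∧ ¬ Rel Φ l x m := by
    by_cases h : Rel Φ l x i
    · refine ⟨i', j', hij', h2, fun h' => h3 ?_⟩
      exact rel_trans l Φ (rel_symm l Φ (hE x) h) h'
    · exact ⟨i, j, hij, h1, h⟩
  have hrefl : ∀ k : Fin q, Rel Φ l k k := fun k => ⟨1, by rw [one_smul]⟩
  have hxm' : ¬ Rel Φ l x m' := fun h => hxm (rel_trans l Φ h (rel_symm l Φ (hE m) hrm))
  have e1 : x ≠ m := by rintro rfl; exact hxm (hrefl _)
  have e2 : x ≠ m' := by rintro rfl; exact hxm' (hrefl _)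
  have e3 : y ≠ m := by rintro rfl; exact hxm hr
  have e4 : y ≠ m' := by rintro rfl; exact hxm' hr
  obtain ⟨c, hc, hk⟩ := rel_gr (hE x) hr
  obtain ⟨c', hc', hm⟩ := rel_gr (hE m) hrm
  have hxz : ¬ Rel Φ l x z := by
    intro h
    have e5 : z ≠ m := by rintro rfl; exact hxm h
    have e6 : z ≠ m' := by rintro rfl; exact hxm' h
    obtain ⟨c'', hc'', hj⟩ := rel_gr (hE x) h
    exact class_two hl hΦ hd hxy hmm e1 e2 e3 e4 hzx hzy e5 e6 hc'' hk hm hj
  refine ⟨hxz, ?_⟩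
  rcases prp_or hl hΦ hd hE hxy hmm e1 e2 e3 e4 hc hc' hk hm (Ne.symm hzx) hxz with h | h
  · exact h
  · exact (no_alpha hl hΦ hd hxy hmm e1 e2 e3 e4 hzx hzy hc hc' hk hm h).elim

/-- there is a proper pair -/
theorem prp_exists (hl : GP l) (hΦ : Function.Surjective Φ) (hd : finrank K Q = 4) (hE : ∀ i, E Φ l i ≠ 0)
    {i j i' j' : Fin q} (hij : i ≠ j) (h1 : Rel Φ l i j) (hij' : i' ≠ j') (h2 : Rel Φ l i' j') (h3 : ¬ Rel Φ l i i') :
    Prp Φ l i i' := by
  refine (prp_class hl hΦ hd hE hij h1 hij' h2 h3 hij h1 ?_ ?_).2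
  · rintro rfl
    exact h3 ⟨1, by rw [one_smul]⟩
  · rintro rfl
    exact h3 h1

/-- for all pairs: proper, or (alpha) -/
theorem prp_all (hl : GP l) (hΦ : Function.Surjective Φ) (hd : finrank K Q = 4) (hE : ∀ i, E Φ l i ≠ 0)
    {i j i' j' : Fin q} (hij : i ≠ j) (h1 : Rel Φ l i j) (hij' : i' ≠ j') (h2 : Rel Φ l i' j') (h3 : ¬ Rel Φ l i i')
    {x y : Fin q} (hxy : x ≠ y) (hn : ¬ Rel Φ l x y) :
    Prp Φ l x y ∨ B Φ l x y ∈ Submodule.span K {E Φ l x, E Φ l y} := by
  have hrefl : ∀ k : Fin q, Rel Φ l k k := fun k => ⟨1, by rw [one_smul]⟩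
  obtain ⟨c, hc, hk⟩ := rel_gr (hE i) h1
  obtain ⟨c', hc', hm⟩ := rel_gr (hE i') h2
  have h3' : ¬ Rel Φ l i j' := fun h => h3 (rel_trans l Φ h (rel_symm l Φ (hE i') h2))
  have e1 : i ≠ i' := by rintro rfl; exact h3 (hrefl _)
  have e2 : i ≠ j' := by rintro rfl; exact h3' (hrefl _)
  have e3 : j ≠ i' := by rintro rfl; exact h3 h1
  have e4 : j ≠ j' := by rintro rfl; exact h3' h1
  exact prp_or hl hΦ hd hE hij hij' e1 e2 e3 e4 hc hc' hk hm hxy hn

omit [CharZero K] in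
/-- the size of an element of the span of two -/
theorem min_le_span {s : Q → ℝ} {a b : Fin q → ℝ} (hp : Plc Φ l s a b) {e f x : Q} (he : e ≠ 0) (hf : f ≠ 0)
    (hx : x ≠ 0) (h : x ∈ Submodule.span K {e, f}) : min (s e) (s f) ≤ s x := by
  obtain ⟨α, β, rfl⟩ := Submodule.mem_span_pair.1 h
  by_cases hα : α = 0
  · subst hα
    rw [zero_smul, zero_add] at hx ⊢
    have hβ : β ≠ 0 := by rintro rfl; exact hx (zero_smul _ _)
    rw [hp.smul β f hβ hf]
    exact min_le_right _ _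
  by_cases hβ : β = 0
  · subst hβ
    rw [zero_smul, add_zero] at hx ⊢
    rw [hp.smul α e hα he]
    exact min_le_left _ _
  have := hp.add (α • e) (β • f) (smul_ne_zero hα he) (smul_ne_zero hβ hf) hx
  rwa [hp.smul α e hα he, hp.smul β f hβ hf] at this

omit [CharZero K] in
theorem rel_size (hE : ∀ i, E Φ l i ≠ 0) {s : Q → ℝ} {a b : Fin q → ℝ} (hp : Plc Φ l s a b) {i j : Fin q}
    (h : Rel Φ l i j) : s (E Φ l i) = s (E Φ l j) := by
  obtain ⟨c, hc⟩ := h
  rw [hc]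
  refine hp.smul c _ ?_ (hE j)
  rintro rfl
  rw [zero_smul] at hc
  exact hE i hc

theorem sum_pair2 {a : Fin q → ℝ} {i j : Fin q} (hij : i ≠ j) (h : ∀ k, k ≠ i → k ≠ j → a k = 0) :
    ∑ k, a k = a i + a j :=
  Finset.sum_eq_add i j hij (fun c _ hc => h c hc.1 hc.2) (fun h => absurd (Finset.mem_univ _) h)
    (fun h => absurd (Finset.mem_univ _) h)

/-- block B4c -/
theorem loc4c (hΦ : Function.Surjective Φ) (hl : GP l) (hq : 4 ≤ q) (hE : ∀ i, E Φ l i ≠ 0) (hd : finrank K Q = 4)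
    (i j i' j' : Fin q) (hij : i ≠ j) (h1 : Rel Φ l i j) (hij' : i' ≠ j') (h2 : Rel Φ l i' j') (h3 : ¬ Rel Φ l i i')
    (s : Q → ℝ) (a b : Fin q → ℝ) (hp : Plc Φ l s a b) :
    (∃ k, Tot Φ l s ≤ 2 * s (E Φ l k)) ∨
      ∃ k k', ¬ Rel Φ l k k' ∧ Prp Φ l k k' ∧ Tot Φ l s ≤ 2 * (s (E Φ l k) + s (E Φ l k')) := by
  have F1 := @prp_all K _ _ q l Q _ _ Φ hl hΦ hd hE i j i' j' hij h1 hij' h2 h3
  have F2 := @prp_class K _ _ q l Q _ _ Φ hl hΦ hd hE i j i' j' hij h1 hij' h2 h3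
  have hT : Tot Φ l s = ∑ k, a k + ∑ k, b k := by
    rw [Tot, ← Finset.sum_add_distrib]
    exact Finset.sum_congr rfl fun k _ => hp.sq k
  -- the alternative (alpha)
  have hα : ∀ x y : Fin q, x ≠ y → a y = 0 → b x = 0 → B Φ l x y ∈ Submodule.span K {E Φ l x, E Φ l y} →
      a x = 0 ∨ b y = 0 := by
    intro x y hxy hay hbx hB
    by_contra hcon
    push Not at hcon
    have hax : 0 < a x := lt_of_le_of_ne (hp.a0 x) (Ne.symm hcon.1)
    have hby : 0 < b y := lt_of_le_of_ne (hp.b0 y) (Ne.symm hcon.2)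
    obtain ⟨h4, h5⟩ := hp.mul_eq y x (Ne.symm hxy) (by rw [hay, hbx]; linarith)
    have h6 : B Φ l y x = B Φ l x y := by rw [B, B, sy_comm]
    rw [h6] at h4 h5
    have h7 := min_le_span hp (hE x) (hE y) h4 hB
    rw [h5, hp.sq, hp.sq, hay, hbx, add_zero, zero_add, zero_add] at h7
    have : 0 < min (a x) (b y) := lt_min hax hby
    linarith
  rcases types l Φ s a b hp hq with ⟨u, v, u', v', hnd, ha, hb, hav, hbv⟩ | ⟨u, v, w, hnd, ha, hb⟩ | ⟨u, v, huv, ha, hb⟩
  · simp only [List.nodup_cons, List.mem_cons, List.not_mem_nil, or_false, not_or, List.nodup_nil, and_true,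
      not_false_eq_true] at hnd
    obtain ⟨⟨uv, uu', uv'⟩, ⟨vu', vv'⟩, u'v'⟩ := hnd
    rw [hT, sum_pair2 uv ha, sum_pair2 u'v' hb]
    have bu := hb u uu' uv'
    have bv := hb v vu' vv'
    have au' := ha u' (Ne.symm uu') (Ne.symm vu')
    have av' := ha v' (Ne.symm uv') (Ne.symm vv')
    have su := hp.sq u
    have sv := hp.sq v
    have su' := hp.sq u'
    have sv' := hp.sq v'
    have p1 := hp.a0 u
    have p2 := hp.b0 u'
    by_cases hr : Rel Φ l v v'
    · have he := rel_size hE hp hr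
      rcases le_total (b u') (a u) with h | h
      · exact Or.inr ⟨v, u, (F2 vv' hr uv uv').1, (F2 vv' hr uv uv').2, by linarith⟩
      · have h5 := F2 (Ne.symm vv') (rel_symm l Φ (hE v) hr) u'v' (Ne.symm vu')
        exact Or.inr ⟨v', u', h5.1, h5.2, by linarith⟩
    · rcases F1 vv' hr with h | h
      · exact Or.inr ⟨v, v', hr, h, by linarith⟩
      · rcases hα v v' vv' av' bv h with h | h
        · exact Or.inl ⟨v', by linarith⟩
        · exact Or.inl ⟨v, by linarith⟩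
  · simp only [List.nodup_cons, List.mem_cons, List.not_mem_nil, or_false, not_or, List.nodup_nil, and_true,
      not_false_eq_true] at hnd
    obtain ⟨⟨uv, uw⟩, vw⟩ := hnd
    rw [hT, sum_pair2 uv ha, sum_pair2 uw hb]
    have aw := ha w (Ne.symm uw) (Ne.symm vw)
    have bv := hb v (Ne.symm uv) vw
    have su := hp.sq u
    have sv := hp.sq v
    have sw := hp.sq w
    have p1 := hp.a0 u
    have p2 := hp.b0 u
    have p3 := hp.a0 v
    have p4 := hp.b0 w
    by_cases hr : Rel Φ l v w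
    · have he := rel_size hE hp hr
      exact Or.inr ⟨v, u, (F2 vw hr uv uw).1, (F2 vw hr uv uw).2, by linarith⟩
    · rcases F1 vw hr with h | h
      · rcases le_total (a u + b u) (a v + b w) with h' | h'
        · exact Or.inr ⟨v, w, hr, h, by linarith⟩
        · exact Or.inl ⟨u, by linarith⟩
      · rcases hα v w vw aw bv h with h | h
        · rcases le_total (a u + b u) (b w) with h' | h'
          · exact Or.inl ⟨w, by linarith⟩
          · exact Or.inl ⟨u, by linarith⟩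
        · rcases le_total (a u + b u) (a v) with h' | h'
          · exact Or.inl ⟨v, by linarith⟩
          · exact Or.inl ⟨u, by linarith⟩
  · rw [hT, sum_pair2 huv ha, sum_pair2 huv hb]
    have su := hp.sq u
    have sv := hp.sq v
    rcases le_total (a u + b u) (a v + b v) with h' | h'
    · exact Or.inl ⟨v, by linarith⟩
    · exact Or.inl ⟨u, by linarith⟩

end Pool.Agent.QP
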