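import Pool.Agent.Helper16.QP.Defs

/-!
# QP: statements of the algebraic blocks (do not import; copy your statement)
-/

set_option autoImplicit false

namespace Pool.Agent.QP

open Module

variable {K : Type*} [Field K] [CharZero K] {q : ℕ} (l : Fin q → Fin 3 → K)

/-! ### Block A: linear algebra in the space of quadratic forms -/

/-- A1. The squares of five lines in general position are independent. -/
theorem indep5 (hl : GP l) (i : Fin 5 → Fin q) (hi : Function.Injective i) :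
    LinearIndependent K fun a => sy (l (i a)) (l (i a)) := sorry

/-- A2. PROOF. A relation, evaluated at `ten x y` with `x`, `y` among the points `l_i ∩ l_j`, `l_i' ∩ l_j'`, .. -/
theorem indep4m (hl : GP l) (i j i' j' : Fin q) (h1 : i ≠ j) (h2 : i ≠ i') (h3 : i ≠ j') (h4 : j ≠ i') (h5 : j ≠ j') (h6 : i' ≠ j')
    (m : Fin 3 → K) (hm : m ≠ 0) (hm1 : m ∈ Submodule.span K {l i, l j}) (hm2 : m ∈ Submodule.span K {l i', l j'}) :
    LinearIndependent K ![sy (l i) (l i), sy (l j) (l j), sy (l i') (l i'), sy (l j') (l j'), sy m m] := sorry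

theorem exists_m (i j i' j' : Fin q) (h : l i ≠ 0) :
    ∃ m : Fin 3 → K, m ≠ 0 ∧ m ∈ Submodule.span K {l i, l j} ∧ m ∈ Submodule.span K {l i', l j'} := sorry
-- (add GP and the inequalities as you need them)

theorem indep3n (hl : GP l) (i j k : Fin q) (h1 : i ≠ j) (h2 : i ≠ k) (h3 : j ≠ k) :
    LinearIndependent K ![sy (l i) (l i), sy (l j) (l j), sy (l k) (l k), sy (l i) (l j), sy (l i) (l k)] := sorry

/-- A4. The coefficients of `r l_k² + r' l_k'²` in the basis `l_i², l_j², l_i'², l_j'², m²` are all nonzero except perhaps the last one. -/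
theorem coef4m (hl : GP l) (i j i' j' k k' : Fin q) (hd : [i, j, i', j', k, k'].Nodup) (m : Fin 3 → K) (hm : m ≠ 0)
    (hm1 : m ∈ Submodule.span K {l i, l j}) (hm2 : m ∈ Submodule.span K {l i', l j'}) (r r' : K) (hr : r ≠ 0) (hr' : r' ≠ 0)
    (c : Fin 5 → K) (h : r • sy (l k) (l k) + r' • sy (l k') (l k') =
      c 0 • sy (l i) (l i) + c 1 • sy (l j) (l j) + c 2 • sy (l i') (l i') + c 3 • sy (l j') (l j') + c 4 • sy m m) :
    c 0 ≠ 0 ∧ c 1 ≠ 0 ∧ c 2 ≠ 0 ∧ c 3 ≠ 0 := sorry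

/-- A5. -/
theorem coef3n (hl : GP l) (i j j' k k' : Fin q) (hd : [i, j, j', k, k'].Nodup) (r r' : K) (hr : r ≠ 0) (hr' : r' ≠ 0)
    (c : Fin 5 → K) (h : r • sy (l k) (l k) + r' • sy (l k') (l k') =
      c 0 • sy (l i) (l i) + c 1 • sy (l j) (l j) + c 2 • sy (l j') (l j') + c 3 • sy (l i) (l j) + c 4 • sy (l i) (l j')) :
    c 3 ≠ 0 ∧ c 4 ≠ 0 := sorry

/-- A6. One of the lines `k` is `i` : then `r l_i² + r' l_k²` is not in the span of `l_i², l_j², l_i'², l_j'², m²`. -/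
theorem coef4m' (hl : GP l) (i j i' j' k : Fin q) (hd : [i, j, i', j', k].Nodup) (m : Fin 3 → K) (hm : m ≠ 0)
    (hm1 : m ∈ Submodule.span K {l i, l j}) (hm2 : m ∈ Submodule.span K {l i', l j'}) :
    sy (l k) (l k) ∉ Submodule.span K
      {sy (l i) (l i), sy (l j) (l j), sy (l i') (l i'), sy (l j') (l j'), sy m m} := sorry

variable {Q : Type*} [AddCommGroup Q] [Module K Q] (Φ : (Fin 6 → K) →ₗ[K] Q)

/-- A7. An independent family of `n` forms has rank at least `n - (6 - d)` in the quotient: the relations. -/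
theorem rel_rank (hΦ : Function.Surjective Φ) {n : ℕ} (w : Fin n → Fin 6 → K) (hw : LinearIndependent K w) :
    n + finrank K Q ≤ 6 + finrank K (Submodule.span K (Set.range (Φ ∘ w))) := sorry

/-! ### Block T: the types -/

theorem types (s : Q → ℝ) (a b : Fin q → ℝ) (hp : Plc Φ l s a b) (hq : 4 ≤ q) :
    (∃ i j i' j' : Fin q, [i, j, i', j'].Nodup ∧ (∀ k, k ≠ i → k ≠ j → a k = 0) ∧ (∀ k, k ≠ i' → k ≠ j' → b k = 0) ∧
      a i ≤ a j ∧ b i' ≤ b j') ∨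
    (∃ i j k : Fin q, [i, j, k].Nodup ∧ (∀ k', k' ≠ i → k' ≠ j → a k' = 0) ∧ (∀ k', k' ≠ i → k' ≠ k → b k' = 0)) ∨
    (∃ i j : Fin q, i ≠ j ∧ (∀ k', k' ≠ i → k' ≠ j → a k' = 0) ∧ (∀ k', k' ≠ i → k' ≠ j → b k' = 0)) := sorry

/-! ### Blocks B: the local inequalities -/

theorem loc6 (hΦ : Function.Surjective Φ) (hl : GP l) (hq : 4 ≤ q) (hE : ∀ i, E Φ l i ≠ 0) (hd : finrank K Q = 6)
    (s : Q → ℝ) (a b : Fin q → ℝ) (hp : Plc Φ l s a b) : Ind K s (Tot Φ l s) := sorry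

theorem loc5 (hΦ : Function.Surjective Φ) (hl : GP l) (hq : 4 ≤ q) (hE : ∀ i, E Φ l i ≠ 0) (hd : finrank K Q = 5) :
    ∃ e : Q, e ≠ 0 ∧ ∀ (s : Q → ℝ) (a b : Fin q → ℝ), Plc Φ l s a b → Ind K s (Tot Φ l s - s e) := sorry

theorem loc4a (hΦ : Function.Surjective Φ) (hl : GP l) (hq : 4 ≤ q) (hE : ∀ i, E Φ l i ≠ 0) (hd : finrank K Q = 4)
    (h : ∀ i j, i ≠ j → ¬ Rel Φ l i j) (s : Q → ℝ) (a b : Fin q → ℝ) (hp : Plc Φ l s a b) :
    Ind K s (2 / 3 * Tot Φ l s) := sorry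

theorem loc4b (hΦ : Function.Surjective Φ) (hl : GP l) (hq : 4 ≤ q) (hE : ∀ i, E Φ l i ≠ 0) (hd : finrank K Q = 4)
    (i0 j0 : Fin q) (h0 : i0 ≠ j0) (hr : Rel Φ l i0 j0) (h : ∀ i j, i ≠ j → Rel Φ l i j → Rel Φ l i i0)
    (s : Q → ℝ) (a b : Fin q → ℝ) (hp : Plc Φ l s a b) : Ind K s ((3 * Tot Φ l s - 2 * s (E Φ l i0)) / 4) := sorry

theorem loc4m (hΦ : Function.Surjective Φ) (hl : GP l) (hq : 4 ≤ q) (hE : ∀ i, E Φ l i ≠ 0) (hd : finrank K Q = 4)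
    (s : Q → ℝ) (a b : Fin q → ℝ) (hp : Plc Φ l s a b) : ∃ i, Ind K s (Tot Φ l s - s (E Φ l i)) := sorry

theorem loc4c (hΦ : Function.Surjective Φ) (hl : GP l) (hq : 4 ≤ q) (hE : ∀ i, E Φ l i ≠ 0) (hd : finrank K Q = 4)
    (i j i' j' : Fin q) (hij : i ≠ j) (h1 : Rel Φ l i j) (hij' : i' ≠ j') (h2 : Rel Φ l i' j') (h3 : ¬ Rel Φ l i i')
    (s : Q → ℝ) (a b : Fin q → ℝ) (hp : Plc Φ l s a b) :
    (∃ k, Tot Φ l s ≤ 2 * s (E Φ l k)) ∨
      ∃ k k', Prp Φ l k k' ∧ Tot Φ l s ≤ 2 * (s (E Φ l k) + s (E Φ l k')) := sorry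

theorem loc3 (hl : GP l) (hq : 4 ≤ q) (hE : ∀ i, E Φ l i ≠ 0)
    (h : ∀ i j, i ≠ j → 2 ≤ finrank K (Submodule.span K {E Φ l i, B Φ l i j, E Φ l j}))
    (s : Q → ℝ) (a b : Fin q → ℝ) (hp : Plc Φ l s a b) : Ind K s (Tot Φ l s / 2) := sorry

/-! ### Block C: the combination -/

theorem comb {ι : Type*} [DecidableEq ι] (hΦ : Function.Surjective Φ) (hl : GP l) (hq : 4 ≤ q) (hE : ∀ i, E Φ l i ≠ 0)
    (hd0 : 2 ≤ finrank K Q) (P : Finset ι) (s : ι → Q → ℝ) (a b : ι → Fin q → ℝ) (hp : ∀ v ∈ P, Plc Φ l (s v) (a v) (b v))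
    (sch : ∀ (n : ι → ℕ) (w : ∀ v, Fin (n v) → Q), (∀ v ∈ P, LinearIndependent K (w v)) →
      ∑ v ∈ P, ∑ i, s v (w v i) ≤ finrank K Q)
    (res : ∀ e : Q, e ≠ 0 → ∑ v ∈ P, s v e ≤ 1)
    (hNR : finrank K Q ≤ 3 → ∀ i j, i ≠ j → 2 ≤ finrank K (Submodule.span K {E Φ l i, B Φ l i j, E Φ l j}))
    (hEF : finrank K Q = 4 → (∀ e : ι → Q, (∀ v ∈ P, e v ≠ 0) → ∑ v ∈ P, s v (e v) ≤ 2) ∨
      (∀ R : ι → ℝ, (∀ v ∈ P, (∃ k, R v = s v (E Φ l k)) ∨ ∃ k k', Prp Φ l k k' ∧ R v = s v (E Φ l k) + s v (E Φ l k')) →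
        ∑ v ∈ P, R v ≤ 3)) :
    ∑ v ∈ P, Tot Φ l (s v) ≤ 6 := sorry

end Pool.Agent.QP
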